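import Pool.Agent.P.MP_d7b7be_al.Defs

set_option autoImplicit false

namespace Pool.Agent.P.MP_d7b7be_al

open Pool.Agent.P.MP_4b59b0_al Pool.Agent.P.MP_e79ed6_al Finset
open scoped Pointwise

lemma amp_tr {α : Type} [Fintype α] {m : ℕ} (e : α ≃ Fin m) (p : Fin m → Prop) (q : α → Prop)
    [DecidablePred p] [DecidablePred q] (h : ∀ a, p (e a) ↔ q a) :
    (univ.filter p).card = (univ.filter q).card := by
  symm
  refine Finset.card_bijective e e.bijective fun a => ?_
  simp [h]

lemma amp_pi {n : ℕ} (k : ℕ) (p : Fin n → Prop) [DecidablePred p] :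
    (univ.filter fun f : Fin k → Fin n => ∀ j, p (f j)).card = (univ.filter p).card ^ k := by
  have : (univ.filter fun f : Fin k → Fin n => ∀ j, p (f j)) =
      Fintype.piFinset fun _ : Fin k => univ.filter p := by
    ext f
    simp [Fintype.mem_piFinset]
  rw [this, Fintype.card_piFinset]
  simp

lemma amp_compl {α : Type} [Fintype α] (p q : α → Prop) [DecidablePred p] [DecidablePred q]
    (h : ∀ a, q a ↔ ¬ p a) :
    ((univ.filter q).card : ℝ) = Fintype.card α - (univ.filter p).card := by
  have h1 := Finset.card_filter_add_card_filter_not (s := (univ : Finset α)) p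
  have h2 : univ.filter q = univ.filter fun a => ¬ p a := by
    ext a
    simp [h]
  rw [h2, ← Finset.card_univ, ← h1]
  push_cast
  ring

lemma amp_tri {n : ℕ} (a b c : Equiv.Perm (Fin n)) : ham a c ≤ ham a b + ham b c := by
  unfold ham
  rw [← add_div]
  refine div_le_div_of_nonneg_right ?_ (Nat.cast_nonneg n)
  have : (univ.filter fun i => a i ≠ c i) ⊆
      (univ.filter fun i => a i ≠ b i) ∪ univ.filter fun i => b i ≠ c i := by
    intro i hi
    simp only [mem_filter, mem_univ, true_and, mem_union] at hi ⊢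
    by_contra h
    push Not at h
    exact hi (h.1.trans h.2)
  exact_mod_cast (card_le_card this).trans (card_union_le _ _)

lemma amp_symm {n : ℕ} (a b : Equiv.Perm (Fin n)) : ham a b = ham b a := by
  unfold ham
  congr 3
  ext i
  simp [ne_comm]

/-- The coordinatewise action, transported to a standard finite type. -/
def ampPow {n : ℕ} (k : ℕ) (σ : Equiv.Perm (Fin n)) : Equiv.Perm (Fin (n ^ k)) :=
  finFunctionFinEquiv.permCongr (Equiv.piCongrRight fun _ : Fin k => σ)

lemma amp_apply {n : ℕ} (k : ℕ) (σ : Equiv.Perm (Fin n)) (f : Fin k → Fin n) :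
    ampPow k σ (finFunctionFinEquiv f) = finFunctionFinEquiv fun j => σ (f j) := by
  simp only [ampPow, Equiv.permCongr_apply, Equiv.symm_apply_apply]
  rfl

lemma amp_agree {n : ℕ} (hn : 1 ≤ n) (a b : Equiv.Perm (Fin n)) :
    ((univ.filter fun i => a i = b i).card : ℝ) = n * (1 - ham a b) := by
  have hn' : (0 : ℝ) < n := by exact_mod_cast hn
  rw [amp_compl (fun i => a i ≠ b i) _ (fun i => by simp), ham, Fintype.card_fin]
  field_simp

theorem amp : StmtAmp := by
  classical
  intro G _ hG F ε hε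
  obtain ⟨k, hk⟩ := exists_pow_lt_of_lt_one hε (by norm_num : (4 / 5 : ℝ) < 1)
  set F' : Finset G := insert 1 (F ∪ F * F) with hF'
  have hk1 : (0 : ℝ) < k + 1 := by positivity
  obtain ⟨n, hn, θ, h1, h2, h3⟩ := hG F' (min (1 / 20) (ε / (k + 1))) (by positivity)
  have hn' : (0 : ℝ) < n := by exact_mod_cast hn
  have m1 : (1 : G) ∈ F' := mem_insert_self _ _
  have m2 : ∀ g ∈ F, g ∈ F' := fun g hg => mem_insert_of_mem (mem_union_left _ hg)
  have m3 : ∀ g ∈ F, ∀ h ∈ F, g * h ∈ F' := fun g hg h hh =>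
    mem_insert_of_mem (mem_union_right _ (mul_mem_mul hg hh))
  refine ⟨n ^ k, fun g => ampPow k (if hg : g ∈ F' then θ ⟨g, hg⟩ else 1), ?_, ?_⟩
  · intro g hg h hh
    simp only [dif_pos (m2 g hg), dif_pos (m2 h hh), dif_pos (m3 g hg h hh)]
    have e1 := h1 ⟨g, m2 g hg⟩ ⟨h, m2 h hh⟩ (m3 g hg h hh)
    set a := θ ⟨g, m2 g hg⟩
    set b := θ ⟨h, m2 h hh⟩
    set c := θ ⟨g * h, m3 g hg h hh⟩
    rw [amp_tr finFunctionFinEquiv _ (fun f : Fin k → Fin n => ¬ ∀ j, (a * b) (f j) = c (f j))
      (fun f => by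
        rw [Equiv.Perm.mul_apply, amp_apply, amp_apply, amp_apply]
        simp only [ne_eq, Equiv.apply_eq_iff_eq, Equiv.Perm.mul_apply, funext_iff]
        exact not_congr (forall_congr' fun j => eq_comm)),
      amp_compl (fun f : Fin k → Fin n => ∀ j, (a * b) (f j) = c (f j)) _ (fun _ => Iff.rfl),
      amp_pi k (fun i => (a * b) i = c i), Nat.cast_pow, amp_agree hn, mul_pow]
    simp only [Fintype.card_fun, Fintype.card_fin, Nat.cast_pow]
    have x0 : 0 ≤ ham (a * b) c := by unfold ham; positivity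
    have x1 : ham (a * b) c < ε / (k + 1) := e1.trans_le (min_le_right _ _)
    have x2 : ham (a * b) c < 1 / 20 := e1.trans_le (min_le_left _ _)
    have x3 := one_add_mul_le_pow (a := -ham (a * b) c) (by linarith) k
    rw [lt_div_iff₀ hk1] at x1
    have x4 : (0 : ℝ) < (n : ℝ) ^ k := by positivity
    have x5 : 1 - (1 - ham (a * b) c) ^ k < ε := by
      rw [← sub_eq_add_neg] at x3
      nlinarith
    nlinarith
  · intro g hg hg1
    simp only [dif_pos (m2 g hg)]
    have e1 := h3 ⟨g, m2 g hg⟩ ⟨1, m1⟩ (fun h => hg1 (congrArg Subtype.val h))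
    have e2 := (h2 m1).trans_le (min_le_left _ _)
    set a := θ ⟨g, m2 g hg⟩
    have e3 := amp_tri a 1 (θ ⟨1, m1⟩)
    rw [amp_symm 1] at e3
    rw [amp_tr finFunctionFinEquiv _
      (fun f : Fin k → Fin n => ∀ j, a (f j) = (1 : Equiv.Perm (Fin n)) (f j))
      (fun f => by
        rw [amp_apply]
        simp only [Equiv.apply_eq_iff_eq, funext_iff, Equiv.Perm.coe_one, id]),
      amp_pi k (fun i => a i = (1 : Equiv.Perm (Fin n)) i), Nat.cast_pow, Nat.cast_pow]
    have x0 : (0 : ℝ) ≤ n * (1 - ham a 1) := by rw [← amp_agree hn]; positivity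
    have x1 : 0 ≤ 1 - ham a 1 := by
      by_contra h'
      push Not at h'
      nlinarith
    rw [amp_agree hn, mul_pow, mul_comm ε]
    refine mul_lt_mul_of_pos_left (lt_of_le_of_lt ?_ hk) (by positivity)
    exact pow_le_pow_left₀ x1 (by linarith) k

theorem lf : StmtLf := by
  classical
  intro G _ hG F ε hε
  set L := Subgroup.closure (F : Set G) with hL
  haveI : Finite L := hG F
  haveI : Fintype L := Fintype.ofFinite L
  have hn : 1 ≤ Fintype.card L := Fintype.card_pos
  have hn' : (0 : ℝ) < Fintype.card L := by exact_mod_cast hn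
  let e := Fintype.equivFin L
  let ι : F → L := fun g => ⟨g, Subgroup.subset_closure g.2⟩
  have z : ∀ a : Equiv.Perm (Fin (Fintype.card L)), ham a a = 0 := fun a => by simp [ham]
  refine ⟨_, hn, fun g => e.permCongr (Equiv.mulLeft (ι g)), ?_, ?_, ?_⟩
  · intro g h hgh
    have : e.permCongr (Equiv.mulLeft (ι g)) * e.permCongr (Equiv.mulLeft (ι h)) =
        e.permCongr (Equiv.mulLeft (ι ⟨g * h, hgh⟩)) := by
      ext i
      have : ι ⟨g * h, hgh⟩ = ι g * ι h := rfl
      simp [this, mul_assoc]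
    beta_reduce
    rw [this, z]
    exact hε
  · intro he
    have : e.permCongr (Equiv.mulLeft (ι ⟨1, he⟩)) = 1 := by
      ext i
      have : ι ⟨1, he⟩ = 1 := rfl
      simp [this]
    beta_reduce
    rw [this, z]
    exact hε
  · intro x y hxy
    have : (univ.filter fun i => e.permCongr (Equiv.mulLeft (ι x)) i ≠
        e.permCongr (Equiv.mulLeft (ι y)) i) = univ := by
      refine filter_true_of_mem fun i _ h => hxy ?_
      simp only [Equiv.permCongr_apply, Equiv.coe_mulLeft, Equiv.apply_eq_iff_eq,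
        mul_left_inj] at h
      exact Subtype.ext (congrArg (fun t : L => (t : G)) h)
    beta_reduce
    rw [ham, this, card_univ, Fintype.card_fin, div_self hn'.ne']
    norm_num

end Pool.Agent.P.MP_d7b7be_al
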