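import Pool.Agent.P.MP_d7b7be_al.Defs
import Pool.Agent.P.MP_4b59b0_al.Type1

set_option autoImplicit false

namespace Pool.Agent.P.MP_d7b7be_al

open Pool.Agent.P.MP_4b59b0_al Pool.Agent.P.MP_e79ed6_al Sp

section

variable {V : Type} {X : Sp V} {H : Type} [Group H] [MulAction H V] {δ : ℕ}

/-- A point on the axis of `g` is close to the orbit of the base point. -/
theorem axs_near (iso : X.Iso H) (hδ : X.Hyp δ) {g : H} {p m : V}
    (hp : X.Bt (2 * δ) (g⁻¹ • p) p (g • p)) (hl : 4 * δ < X.d p (g • p))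
    (hm : X.Ax g (7 * δ) m) : ∃ k : ℤ, X.d m (g ^ k • p) ≤ X.d p (g • p) + 20 * δ := by
  obtain ⟨N, hN⟩ := hm p
  have h1 := hN N N le_rfl le_rfl
  rw [inv_pow, ← zpow_natCast, ← zpow_neg] at h1
  by_cases hP : X.d (g ^ (-(N : ℤ)) • p) (g ^ (-(N : ℤ) + (2 * N : ℕ)) • p) ≤
      X.d (g ^ (-(N : ℤ)) • p) m
  · have e : -(N : ℤ) + (2 * N : ℕ) = N := by push_cast; ring
    rw [e] at hP
    exact ⟨N, by unfold Bt at h1; omega⟩
  · obtain ⟨i, hi, i1, i2⟩ := ivt (fun i : ℕ => X.d (g ^ (-(N : ℤ)) • p)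
      (g ^ (-(N : ℤ) + i) • p) ≤ X.d (g ^ (-(N : ℤ)) • p) m) (2 * N) (by simp [X.d_self]) hP
    have h4 := orbit_bt iso hδ hp (by omega) (i := -(N : ℤ)) (j := -(N : ℤ) + i) (k := N)
      (by omega) (by omega)
    have h5 : X.d (g ^ (-(N : ℤ) + i) • p) (g ^ (-(N : ℤ) + (i + 1 : ℕ)) • p) =
        X.d p (g • p) := by
      rw [Nat.cast_succ, ← add_assoc, zpow_add_one, mul_smul, iso]
    have h6 := X.tri (g ^ (-(N : ℤ)) • p) (g ^ (-(N : ℤ) + i) • p)
      (g ^ (-(N : ℤ) + (i + 1 : ℕ)) • p)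
    refine ⟨-(N : ℤ) + i, ?_⟩
    rcases hδ.l2 h1 h4 with h7 | h7 <;> omega

theorem axs_eq {a g g' : H} :
    (g : H ⧸ Subgroup.centralizer ({a} : Set H)) = (g' : H ⧸ Subgroup.centralizer ({a} : Set H)) ↔
      Commute a (g⁻¹ * g') := by
  rw [QuotientGroup.eq, Subgroup.mem_centralizer_singleton_iff]
  exact ⟨fun h => h.symm, fun h => h.eq.symm⟩

/-- Commuting conjugates of `a` come from the same coset. -/
theorem axs_mal (csa : Csa H) {a g g' : H} (ha : a ≠ 1)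
    (h : Commute (g * a * g⁻¹) (g' * a * g'⁻¹)) : Commute a (g⁻¹ * g') := by
  have h1 := h.map (MulAut.conj g⁻¹).toMonoidHom
  have e1 : (MulAut.conj g⁻¹).toMonoidHom (g * a * g⁻¹) = a := by simp [mul_assoc]
  have e2 : (MulAut.conj g⁻¹).toMonoidHom (g' * a * g'⁻¹) = (g'⁻¹ * g)⁻¹ * a * (g'⁻¹ * g) := by
    simp [mul_assoc]
  rw [e1, e2] at h1
  have := (csa.mal a _ ha h1).inv_right
  simpa using this

theorem axs_conj {a g g' : H} (h : Commute a (g⁻¹ * g')) : g' * a * g'⁻¹ = g * a * g⁻¹ := by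
  have e : g' = g * (g⁻¹ * g') := by group
  have h1 := h.eq
  calc g' * a * g'⁻¹ = g * ((g⁻¹ * g') * a) * g'⁻¹ := by group
    _ = g * (a * (g⁻¹ * g')) * g'⁻¹ := by rw [h1]
    _ = g * a * g⁻¹ := by group

end

theorem axis (h : StmtAcyl) : StmtAxis := by
  intro V X H _ _ δ o geo csa a ha
  have iso := geo.iso
  have hδ := geo.hyp
  have pos := geo.pos
  obtain ⟨p, p1, p2⟩ := X.exists_mid o (a • o)
  have hl := ha p
  have hp := (Sp.mid iso hδ p1 p2 (by omega)).1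
  obtain ⟨hE, hax⟩ := mid_ax iso hδ p1 p2 (by omega)
  have ha1 : a ≠ 1 := hE.ne_one p
  obtain ⟨A, hA⟩ := h V X H δ o geo csa (X.d p (a • p) + 11 * δ)
  let C := Subgroup.centralizer ({a} : Set H)
  let Y : H ⧸ C → Set V := fun u => {y | ∃ g : H, (g : H ⧸ C) = u ∧ y = g • p}
  have yax : ∀ (g : H) (y : V), y ∈ Y (g : H ⧸ C) → X.Ax (g * a * g⁻¹) (6 * δ) y := by
    rintro g _ ⟨g', e, rfl⟩
    rw [← axs_conj (axs_eq.1 e.symm)]
    exact hax.conj iso g'
  have near : ∀ (g : H) (m : V), X.Ax (g * a * g⁻¹) (7 * δ) m →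
      ∃ k : ℤ, X.d m (g • a ^ k • p) ≤ X.d p (a • p) + 20 * δ := by
    intro g m hm
    have h1 := hm.conj iso g⁻¹
    have e : g⁻¹ * (g * a * g⁻¹) * g⁻¹⁻¹ = a := by group
    rw [e] at h1
    obtain ⟨k, hk⟩ := axs_near iso hδ hp (by omega) h1
    exact ⟨k, by rwa [iso.inv] at hk⟩
  have stab : ∀ (g k : H), g • (k : H ⧸ C) = k → Commute g (k * a * k⁻¹) := by
    intro g k e
    rw [MulAction.Quotient.smul_coe, smul_eq_mul] at e
    have h1 := axs_conj (axs_eq.1 e.symm)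
    have : g * (k * a * k⁻¹) = g * k * a * (g * k)⁻¹ * g := by group
    rw [h1] at this
    exact this
  refine ⟨H ⧸ C, inferInstance, Y, ((1 : H) : H ⧸ C), p, 2 * A + X.d p (a • p) + 100 * δ + 4,
    ⟨hδ.mono (by omega), by omega, ?_, ?_, ?_⟩, ?_, ?_, ?_, ?_, ?_, hp, ?_⟩
  · intro u
    obtain ⟨g, rfl⟩ := QuotientGroup.mk_surjective u
    exact ⟨g • p, g, rfl, rfl⟩
  · intro u x y m hx hy hm
    obtain ⟨g, rfl⟩ := QuotientGroup.mk_surjective u
    obtain ⟨k, hk⟩ := near g m (((yax g x hx).bt hδ (yax g y hy) hm).mono (by omega))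
    refine ⟨g • a ^ k • p, ⟨g * a ^ k, ?_, (mul_smul _ _ _).symm⟩, by omega⟩
    refine (axs_eq.2 ?_).symm
    rw [inv_mul_cancel_left]
    exact (Commute.refl a).zpow_right k
  · intro u u' hne x hx y hy q hq r hr
    obtain ⟨g, rfl⟩ := QuotientGroup.mk_surjective u
    obtain ⟨g', rfl⟩ := QuotientGroup.mk_surjective u'
    by_contra hc
    obtain ⟨m, m', a1, a2, a3, a4, a5⟩ := hδ.ov1 (t := A) (x := x) (y := y) (p := q) (q := r)
      (by omega)
    have b1 := ((yax g r hr).bt hδ (yax g q hq) a3).move iso hδ (Commute.refl _) (g • p)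
    have b2 := ((yax g r hr).bt hδ (yax g q hq) a4).move iso hδ (Commute.refl _) (g • p)
    have b3 := ((yax g' x hx).bt hδ (yax g' y hy) a1).move iso hδ (Commute.refl _) (g' • p)
    have b4 := ((yax g' x hx).bt hδ (yax g' y hy) a2).move iso hδ (Commute.refl _) (g' • p)
    rw [iso.disp_conj] at b1 b2 b3 b4
    have := X.tri x m m'
    have hcm := hA (g * a * g⁻¹) (g' * a * g'⁻¹) m m' (by omega) (by omega) (by omega) (by omega)
      (by omega)
    exact hne (axs_eq.2 (axs_mal csa ha1 hcm))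
  · rintro g _ _ ⟨k, rfl, rfl⟩
    exact ⟨g * k, by rw [MulAction.Quotient.smul_coe, smul_eq_mul], (mul_smul _ _ _).symm⟩
  · intro u
    obtain ⟨g, rfl⟩ := QuotientGroup.mk_surjective u
    exact ⟨g, by rw [MulAction.Quotient.smul_coe, smul_eq_mul, mul_one]⟩
  · intro g
    rw [MulAction.Quotient.smul_coe, smul_eq_mul, mul_one, eq_comm, axs_eq, inv_one, one_mul]
  · intro y
    constructor
    · rintro ⟨g, e, rfl⟩
      exact ⟨g, by simpa using axs_eq.1 e.symm, rfl⟩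
    · rintro ⟨c, hc, rfl⟩
      exact ⟨c, (axs_eq.2 (by simpa using hc)).symm, rfl⟩
  · intro y hy
    obtain ⟨k, hk⟩ := near 1 y ((yax 1 y hy).mono (by omega))
    rw [one_smul] at hk
    exact ⟨k, by omega⟩
  · intro u u' g hne hu hu'
    obtain ⟨k, rfl⟩ := QuotientGroup.mk_surjective u
    obtain ⟨k', rfl⟩ := QuotientGroup.mk_surjective u'
    by_contra h1
    exact hne (axs_eq.2 (axs_mal csa ha1 (csa.ct g _ _ h1 (stab g k hu) (stab g k' hu'))))

end Pool.Agent.P.MP_d7b7be_al
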