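import Pool.Agent.P.MP_d7b7be_al.Defs
import Pool.Agent.P.MP_e79ed6_al.Ball
import Pool.Agent.P.MP_e79ed6_al.Des
import Pool.Agent.P.MP_e79ed6_al.Dir
import Pool.Agent.P.MP_e79ed6_al.Girth
import Pool.Agent.P.MP_e79ed6_al.Orb
import Pool.Agent.P.MP_e79ed6_al.Phi
import Pool.Agent.P.MP_e79ed6_al.Rank
import Pool.Agent.P.MP_e79ed6_al.Read
import Pool.Agent.P.MP_e79ed6_al.Switch

set_option autoImplicit false

namespace Pool.Agent.P.MP_d7b7be_al

open Pool.Agent.P.MP_4b59b0_al Pool.Agent.P.MP_e79ed6_al Sp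

section
open Finset

theorem base_rank (K T B I V : Type) [Field K] [Fintype T] [Fintype B] [Fintype I]
    [Fintype V] [DecidableEq B] [DecidableEq V] [DecidableEq T] [DecidableEq I] (D : ℕ)
    (d : Des K T B I V D) (β : T × T → Equiv.Perm I) (i₀ : I) (G : Type) [Group G]
    (x : T ⊕ T → G) (γ : (T × I × V) ⊕ (T × B) × I → G)
    (hγ : ∀ e, γ ((d.lg β i₀).en e false) = γ ((d.lg β i₀).en e true) * x ((d.lg β i₀).lab e))
    (hx : ∀ t k, 0 < k → k ≤ 2 * Fintype.card T + 2 →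
      (x (Sum.inl t) * (x (Sum.inr t))⁻¹) ^ k ≠ 1) : ¬ Sofic G := by
  intro hS
  classical
  let h : T → G := fun t => x (Sum.inl t) * (x (Sum.inr t))⁻¹
  set τ := Fintype.card T with hτ
  set k := 2 * τ + 2 with hk
  let F : Finset G := (univ.image fun s => x (Sum.inl s)) ∪ (univ.image fun y => (γ y)⁻¹) ∪
    (univ ×ˢ range (k + 1)).image fun p : T × ℕ => h p.1 ^ p.2
  have f1 : ∀ s, x (Sum.inl s) ∈ F := fun s =>
    mem_union_left _ (mem_union_left _ (mem_image.2 ⟨s, mem_univ _, rfl⟩))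
  have f2 : ∀ y, (γ y)⁻¹ ∈ F := fun y =>
    mem_union_left _ (mem_union_right _ (mem_image.2 ⟨y, mem_univ _, rfl⟩))
  have f3 : ∀ t j, j ≤ k → h t ^ j ∈ F := fun t j hj =>
    mem_union_right _ (mem_image.2 ⟨(t, j), mem_product.2 ⟨mem_univ _, mem_range.2 (by omega)⟩, rfl⟩)
  have f4 : ∀ t, h t ∈ F := fun t => by simpa using f3 t 1 (by omega)
  obtain ⟨n, σ, E, hn, hE, m1, m2⟩ := rank_approx hS (insert 1 F) (mem_insert_self _ _)
    (τ * (k * (k + 1)) + 1) (by omega)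
  replace m1 : ∀ g ∈ F, ∀ g' ∈ F, ∀ ω, ω ∉ E → σ (g * g') ω = σ g (σ g' ω) :=
    fun g hg g' hg' => m1 g (mem_insert_of_mem hg) g' (mem_insert_of_mem hg')
  replace m2 : ∀ g ∈ F, g ≠ 1 → ∀ ω, ω ∉ E → σ g ω ≠ ω :=
    fun g hg => m2 g (mem_insert_of_mem hg)
  have p1 : ∀ t j, j + 1 ≤ k → ∀ ω, ω ∉ E → (σ (h t) ^ (j + 1)) ω = σ (h t ^ (j + 1)) ω := by
    intro t j
    induction j with
    | zero => intro _ ω _; simp
    | succ j ih =>
      intro hj ω hω
      rw [pow_succ' (σ (h t)), pow_succ' (h t) (j + 1), m1 _ (f4 t) _ (f3 t _ (by omega)) ω hω,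
        Equiv.Perm.mul_apply, ih (by omega) ω hω]
  have p2 : ∀ t, ∀ j ∈ Ioo 0 k, (univ.filter fun ω => (σ (h t) ^ j) ω = ω).card ≤ E.card := by
    intro t j hj
    obtain ⟨hj0, hjk⟩ := mem_Ioo.1 hj
    obtain ⟨j, rfl⟩ : ∃ j', j = j' + 1 := ⟨j - 1, by omega⟩
    refine card_le_card fun ω hω => ?_
    by_contra hE'
    have := (mem_filter.1 hω).2
    rw [p1 t j hjk.le ω hE'] at this
    exact m2 _ (f3 t _ hjk.le) (hx t _ hj0 hjk.le) ω hE' this
  let l₀ : T → (T × I × V) ⊕ (T × B) × I := fun t => Sum.inl (t, i₀, d.ν t t i₀)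
  let Bad : T → Finset (Fin n) := fun t => E.image (σ (γ (l₀ t))⁻¹)
  choose Z z1 z2 using fun t => orb n (σ (h t)) k (Bad t)
  have key := dim K T B d.cl d.Φ d.dim n (fun s => σ (x (Sum.inl s))) Z (by
    intro ξ x1 x2 x3
    funext ω t
    refine z2 t K (fun ω => ξ ω t) ?_ (x3 t) ω
    intro ω' hω'
    obtain ⟨ω, rfl⟩ := (σ (γ (l₀ t))⁻¹).surjective ω'
    have hω : ω ∉ E := fun hh => hω' (mem_image_of_mem _ hh)
    have e := sumE K T B I V D d (fun s => β (t, s)) i₀ t (Fin n) (fun s => σ (x (Sum.inl s))) ξ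
      (fun i v => σ (γ (Sum.inl (t, i, v)))⁻¹ ω) (fun b j => σ (γ (Sum.inr ((t, b), j)))⁻¹ ω)
      x1 x2 (by
        intro s i hsi
        have e1 := hγ ((t, s), i)
        simp only [Des.lg, ben, Des.cl', Des.lam, if_neg hsi] at e1
        rw [← m1 _ (f1 s) _ (f2 _) ω hω, e1]
        simp)
    have e1 := hγ ((t, t), i₀)
    simp only [Des.lg, ben, Des.cl', Des.lam, and_self, if_true] at e1
    rw [← m1 _ (f1 t) _ (f2 _) ω hω, e1] at e
    show ξ (σ (h t) (σ (γ (l₀ t))⁻¹ ω)) t = ξ (σ (γ (l₀ t))⁻¹ ω) t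
    rw [← m1 _ (f4 t) _ (f2 _) ω hω, ← e]
    simp [h, l₀, mul_assoc])
  have z3 : ∀ t, k * (Z t).card ≤ n + k * ((k + 1) * E.card) := by
    intro t
    refine (z1 t).trans (Nat.add_le_add_left (Nat.mul_le_mul_left _ ?_) _)
    have q1 : (Bad t).card ≤ E.card := card_image_le
    have q2 := Finset.sum_le_card_nsmul (Ioo 0 k) _ E.card (p2 t)
    rw [Nat.card_Ioo, smul_eq_mul] at q2
    have q3 : (k - 0 - 1) * E.card ≤ k * E.card := Nat.mul_le_mul_right _ (by omega)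
    nlinarith
  have z4 : k * n ≤ τ * (n + k * ((k + 1) * E.card)) := by
    refine (Nat.mul_le_mul_left k key).trans ?_
    rw [Finset.mul_sum]
    have := Finset.sum_le_card_nsmul univ (fun t => k * (Z t).card) _ (fun t _ => z3 t)
    simpa [hτ] using this
  have z5 : τ * (k * ((k + 1) * E.card)) ≤ n := by nlinarith
  rw [mul_add] at z4
  have z6 : k * n = 2 * (τ * n) + 2 * n := by rw [hk]; ring
  have z7 : 0 ≤ τ * n := Nat.zero_le _
  omega

end

open FreeGroup LG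

theorem base_csa (S : Type) [DecidableEq S] : Csa (FreeGroup S) := by
  have iso := tree_iso S
  have hyp := tree_hyp S
  have tf : ∀ (g : FreeGroup S) (n : ℕ), 0 < n → g ^ n = 1 → g = 1 :=
    fun g n hn h => (pow_eq_one_iff_left (by omega)).1 h
  have ct : ∀ a b c : FreeGroup S, a ≠ 1 → Commute a b → Commute a c → Commute b c := by
    intro a b c ha hb hc
    obtain ⟨m, -, h1, h2⟩ := tree_mid ha 1
    obtain ⟨h3, h4⟩ := ax0 iso hyp h1 (by omega)
    exact free_ct iso hyp h3 h4 (fun h hh => tree_free (x := m) (by omega)) hb hc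
  refine ⟨fun g h => tf g 2 (by omega) h, ct, fun a x ha hx => ?_⟩
  obtain ⟨m, -, h1, h2⟩ := tree_mid ha 1
  obtain ⟨h3, h4⟩ := ax0 iso hyp h1 (by omega)
  exact mal_of_conj tf ct (free_conj iso hyp h3 h4 (fun h hh => tree_free (x := m) (by omega)) hx)

theorem base_geom (S : Type) [DecidableEq S] [Fintype S] :
    Geom (tree S) (FreeGroup S) 1 1 where
  iso := tree_iso S
  hyp := (tree_hyp S).mono (by omega)
  pos := le_rfl
  fin := fun D => by
    refine ((List.finite_length_le (S × Bool) D).preimage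
      (f := fun g : FreeGroup S => g.toWord) toWord_injective.injOn).subset ?_
    intro g hg
    change norm (1⁻¹ * (g * 1)) ≤ D at hg
    simpa [FreeGroup.norm] using hg
  cob := ⟨0, fun x => ⟨x, by rw [smul_eq_mul, mul_one, (tree S).d_self]⟩⟩

theorem base_sc (hq : StmtQuot) (c : ℕ) : ∃ g : ℕ, ∀ (Ed N S : Type) [Fintype N] [Fintype S]
    [DecidableEq S] (Γ : LG Ed N S), Γ.Girth g → Γ.Pieces c →
    ∃ (G : Type) (_ : Group G) (x : S → G) (γ : N → G), Nice G ∧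
      (∀ e, γ (Γ.en e false) = γ (Γ.en e true) * x (Γ.lab e)) ∧
      ∀ s s' k, s ≠ s' → 0 < k → (x s * (x s')⁻¹) ^ k ≠ 1 := by
  classical
  obtain ⟨C₀, hq⟩ := hq
  obtain ⟨ε, hε⟩ : ∃ ε, ε = 2 * c + 6 := ⟨_, rfl⟩
  refine ⟨C₀ * ε + 100 * ε, fun Ed N S _ _ _ Γ hg hc => ?_⟩
  have F : Fam (tree S) Γ.Y ε := hε ▸ fam hc
  have iso := tree_iso S
  have hp : ∀ y z : N, ∃ f, (∃ f', Γ.Rf y f' z) → Γ.Rf y f z := by
    intro y z
    by_cases hh : ∃ f', Γ.Rf y f' z
    · obtain ⟨f, hf⟩ := hh; exact ⟨f, fun _ => hf⟩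
    · exact ⟨1, fun h => absurd h hh⟩
  choose pth hpth using hp
  obtain ⟨G, _, π, -, hN, q1, -, q3⟩ := hq _ (tree S) (FreeGroup S) 1 1 Γ.U Γ.Y ε
    (Finset.univ.sup fun p : N × N => norm (pth p.1 p.2))
    (fun u => MulAction.stabilizer (FreeGroup S) u) (base_geom S) (base_csa S) F Y_eqv
    (fun g u r hr => by
      rw [MulAction.mem_stabilizer_iff] at *
      rw [mul_smul, inv_smul_smul, mul_smul, hr])
    (fun u r hr => hr)
    (by
      rintro ⟨q, g, g1, g2⟩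
      exact ⟨g, Subtype.ext g2, g1⟩)
    (fun u r hr r1 y hy => le_trans (by omega) (disp hg hr r1 y hy))
    (fun u g h hg hh => mul_mem (mul_mem (mul_mem hg hh) (inv_mem hg)) (inv_mem hh))
    (fun u g hg _ => hg) (fun u u' g _ hg _ => hg)
    (by
      rintro u x ⟨z, a1⟩ y ⟨z', a2⟩
      have a3 := hpth z z' ⟨_, mk_eq.1 (a1.trans a2.symm)⟩
      refine ⟨x * pth z z' * y⁻¹, ?_, ?_⟩
      · rw [MulAction.mem_stabilizer_iff]
        refine Subtype.ext ?_
        rw [SubMulAction.val_smul]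
        calc (x * pth z z' * y⁻¹) • u.1
            = (x * pth z z' * y⁻¹) • Quotient.mk Γ.sd (y, z') := by rw [a2]
          _ = Quotient.mk Γ.sd (x, z) := by
            rw [smul_mk, eq_comm, mk_eq]
            simpa [mul_assoc] using a3
          _ = u.1 := a1
      · change norm (x⁻¹ * (x * pth z z' * y⁻¹ * y)) ≤ _
        rw [inv_mul_cancel_right, inv_mul_cancel_left]
        exact Finset.le_sup (f := fun p : N × N => norm (pth p.1 p.2)) (Finset.mem_univ (z, z')))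
  have cl : ∀ {z : N} {g : FreeGroup S}, Γ.Rf z g z → π g = 1 := by
    intro z g hz
    by_cases g1 : g = 1
    · rw [g1, π.map_one]
    obtain ⟨u, hu⟩ := closed hz g1
    exact q1 u g hu
  have cl' : ∀ {y z : N} {f f' : FreeGroup S}, Γ.Rf y f z → Γ.Rf y f' z → π f = π f' := by
    intro y z f f' a b
    have := cl (a.inv.mul b)
    rwa [π.map_mul, π.map_inv, inv_mul_eq_one] at this
  let cn : Setoid N := ⟨fun y z => ∃ f, Γ.Rf y f z, ⟨fun y => ⟨1, rf_one y⟩,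
    fun ⟨f, hf⟩ => ⟨_, hf.inv⟩, fun ⟨f, hf⟩ ⟨f', hf'⟩ => ⟨_, hf.mul hf'⟩⟩⟩
  let rep : N → N := fun y => (Quotient.mk cn y).out
  have hrep : ∀ y, Γ.Rf (rep y) (pth (rep y) y) y := fun y => hpth _ _ (Quotient.mk_out (s := cn) y)
  refine ⟨G, inferInstance, fun s => π (of s), fun y => π (pth (rep y) y), hN, fun e => ?_,
    fun s s' k hs hk hc => ?_⟩
  · have e1 : rep (Γ.en e false) = rep (Γ.en e true) := by
      simp only [rep]
      congr 1
      exact (Quotient.sound (s := cn) ⟨_, rf_edge e⟩).symm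
    rw [← π.map_mul]
    exact cl' (hrep _) (e1 ▸ (hrep _).mul (rf_edge e))
  · obtain ⟨g, hgd⟩ : ∃ g : FreeGroup S, g = of s * (of s')⁻¹ := ⟨_, rfl⟩
    have g1 : g ≠ 1 := by
      rw [hgd, Ne, mul_inv_eq_one]
      exact fun h => hs (of_injective h)
    have g2 : (tree S).d 1 (g • (1 : FreeGroup S)) ≤ 2 := by
      change norm (1⁻¹ * (g * 1)) ≤ 2
      have := norm_mul_le (of s) (of s')⁻¹
      rw [norm_inv_eq, norm_of, norm_of] at this
      simpa [hgd] using this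
    have g3 : ∀ u : Γ.U, g • u ≠ u := by
      intro u hu
      have a1 := F.rot iso Y_eqv hu (disp hg hu g1) 1
      have a2 := ang_le_two (X := tree S) (Y := Γ.Y) u 1 (g • 1)
      omega
    have := q3 g 1 k (by omega) g3 (by rw [π.map_pow, hgd, π.map_mul, π.map_inv]; exact hc)
    exact g1 ((pow_eq_one_iff_left (by omega)).1 this)

theorem base (hq : StmtQuot) : StmtBase := by
  classical
  obtain ⟨g, hg⟩ := base_sc hq 4
  obtain ⟨K, T, B, I, V, _, _, _, _, _, _, _, D, d, hD⟩ := des dir phi g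
  obtain ⟨i₀⟩ : Nonempty I := Fintype.card_pos_iff.1 (by omega)
  obtain ⟨β, b1, b2⟩ := switch ball add (T × T) (T × B) (T × I × V) I d.cl' d.lam D g
    (fun s i j h => by simpa [Des.lam] using (Prod.ext_iff.1 (Prod.ext_iff.1 h).2).1)
    (by
      rintro ⟨t, i, v⟩
      refine le_trans ?_ (d.dl t i v)
      rw [← Set.ncard_coe_finset]
      refine Set.ncard_le_ncard_of_injOn (fun e => e.1.2) ?_ ?_ (Set.toFinite _)
      · rintro ⟨⟨t', s⟩, i'⟩ h
        simp only [Des.lam, Set.mem_ofPred_eq, Prod.mk.injEq] at h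
        obtain ⟨rfl, rfl, h⟩ := h
        simpa using h
      · rintro ⟨⟨t', s⟩, i'⟩ h ⟨⟨t'', s'⟩, i''⟩ h' e
        simp only [Des.lam, Set.mem_ofPred_eq, Prod.mk.injEq] at h h' e
        obtain ⟨rfl, rfl, -⟩ := h
        obtain ⟨rfl, rfl, -⟩ := h'
        rw [e])
    (by
      rintro ⟨t, b⟩
      refine le_trans ?_ (d.dr b)
      rw [← Set.ncard_coe_finset]
      refine Set.ncard_le_ncard_of_injOn (fun e => e.2) ?_ ?_ (Set.toFinite _)
      · rintro ⟨t', s⟩ h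
        simp only [Des.cl', Set.mem_ofPred_eq, Prod.mk.injEq] at h
        simpa using h.2
      · rintro ⟨t', s⟩ h ⟨t'', s'⟩ h' e
        simp only [Des.cl', Set.mem_ofPred_eq, Prod.mk.injEq] at h h' e
        rw [h.1, h'.1, e])
    hD
  obtain ⟨G, _, x, γ, a1, a2, a3⟩ := hg _ _ _ (d.lg β i₀) (girth _ _ _ _ g b2)
    (pieces K T B I V D d β i₀ b1)
  refine ⟨G, inferInstance, a1, (Finset.univ ×ˢ Finset.Icc 1 (2 * Fintype.card T + 2)).image
    fun p : T × ℕ => (x (Sum.inl p.1) * (x (Sum.inr p.1))⁻¹) ^ p.2, ?_, fun G' _ ψ hψ => ?_⟩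
  · intro h
    obtain ⟨⟨t, k⟩, h1, h2⟩ := Finset.mem_image.1 h
    exact a3 _ _ k (by simp) (Finset.mem_Icc.1 (Finset.mem_product.1 h1).2).1 h2
  · refine base_rank K T B I V D d β i₀ G' (fun s => ψ (x s)) (fun y => ψ (γ y))
      (fun e => by rw [a2 e, ψ.map_mul]) fun t k h0 hk => ?_
    have := hψ _ (Finset.mem_image.2 ⟨(t, k), Finset.mem_product.2
      ⟨Finset.mem_univ _, Finset.mem_Icc.2 ⟨h0, hk⟩⟩, rfl⟩)
    rwa [ψ.map_pow, ψ.map_mul, ψ.map_inv] at this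

end Pool.Agent.P.MP_d7b7be_al
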