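import Pool.Agent.P.MP_d7b7be_al.Defs

set_option autoImplicit false

namespace Pool.Agent.P.MP_d7b7be_al

open Pool.Agent.P.MP_4b59b0_al Pool.Agent.P.MP_e79ed6_al Sp

variable {V U : Type} {X : Sp V} {Y : U → Set V} {ε : ℕ} {u : ℤ → U} {P : ℤ → V}

theorem chn_corner (F : Fam X Y ε) (C : Chain X Y ε u P) (j : ℤ) :
    X.Bt (5 * ε) (P j) (P (j + 1)) (P (j + 1 + 1)) := by
  obtain ⟨y, y1, y2⟩ := C.n0 j
  obtain ⟨z, z1, z2⟩ := C.n0 (j + 1)
  have h := F.ov (u (j + 1)) (u j) (C.ne j).symm y y1 _ (C.n1 j) z z1 _ (C.n1 (j + 1))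
  have := X.tri (P j) y (P (j + 1)); have := X.tri y z (P (j + 1))
  have := X.symm z (P (j + 1)); have := X.tri y (P j) (P (j + 1 + 1))
  have := X.symm y (P j)
  unfold Bt; omega

theorem chn_bt1 (F : Fam X Y ε) (C : Chain X Y ε u P) (n : ℕ) :
    ∀ j k : ℤ, k = j + 1 + n → X.Bt (6 * ε) (P j) (P (j + 1)) (P k) := by
  induction n with
  | zero =>
    intro j k hk
    have : k = j + 1 := by omega
    rw [this]; exact bt_right _ _ _
  | succ n ih =>
    intro j k hk
    rcases F.hyp.l1 (chn_corner F C j) (P k) with h | h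
    · exact h.mono (by omega)
    · have h2 := ih (j + 1) k (by omega)
      have := C.long (j + 1); have := F.pos
      have := X.symm (P (j + 1)) (P (j + 1 + 1))
      unfold Bt at h h2; omega

theorem chn_bt2 (F : Fam X Y ε) (C : Chain X Y ε u P) (n : ℕ) :
    ∀ i j : ℤ, j = i + n → X.Bt (6 * ε) (P i) (P j) (P (j + 1)) := by
  induction n with
  | zero =>
    intro i j hj
    have : j = i := by omega
    rw [this]; exact bt_left _ _ _
  | succ n ih =>
    intro i j hj
    obtain ⟨m, rfl⟩ : ∃ m, j = m + 1 := ⟨j - 1, by omega⟩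
    rcases F.hyp.l1 (chn_corner F C m) (P i) with h | h
    · have h2 := ih i m (by omega)
      have := C.long m; have := F.pos
      have := X.symm (P i) (P m); have := X.symm (P i) (P (m + 1))
      unfold Bt at h h2; omega
    · exact h.symm.mono (by omega)

theorem chn_bt (F : Fam X Y ε) (C : Chain X Y ε u P) {i j k : ℤ} (hij : i ≤ j) (hjk : j ≤ k) :
    X.Bt (7 * ε) (P i) (P j) (P k) := by
  rcases eq_or_lt_of_le hij with rfl | hlt
  · exact bt_left _ _ _
  obtain ⟨m, rfl⟩ : ∃ m, j = m + 1 := ⟨j - 1, by omega⟩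
  rcases F.hyp.l1 (chn_bt1 F C (k - (m + 1)).toNat m k (by omega)) (P i) with h | h
  · have h2 := chn_bt2 F C (m - i).toNat i m (by omega)
    have := C.long m; have := F.pos
    have := X.symm (P i) (P m); have := X.symm (P i) (P (m + 1))
    unfold Bt at h h2; omega
  · exact h.symm.mono (by omega)

theorem chn_near (F : Fam X Y ε) {v w : U} (h : v ≠ w) {a y b : V} (hy : y ∈ Y w)
    (ha : X.d a y ≤ ε) (hb : b ∈ Y w) : ang X Y v a b ≤ 3 * ε := by
  have := ang_tri (X := X) (Y := Y) v a y b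
  have := ang_le_two (X := X) (Y := Y) v a y
  have := F.ang_ov h hy hb
  omega

theorem chn_step (F : Fam X Y ε) (C : Chain X Y ε u P) {v : U} {k : ℤ} (h : v ≠ u k) :
    ang X Y v (P k) (P (k + 1)) ≤ 3 * ε := by
  obtain ⟨y, y1, y2⟩ := C.n0 k
  exact chn_near F h y1 y2 (C.n1 k)

theorem chn_out (F : Fam X Y ε) (C : Chain X Y ε u P) {v : U} {i j : ℤ} (hij : i ≤ j)
    (h : ∀ k, i ≤ k → k < j → v ≠ u k) : ang X Y v (P i) (P j) ≤ 40 * ε := by
  by_contra hc
  have e : i + ((j - i).toNat : ℤ) = j := by omega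
  obtain ⟨n, hn, h1, h2⟩ := ivt (fun n : ℕ => ang X Y v (P i) (P (i + n)) ≤ 20 * ε) (j - i).toNat
    (by simp [ang_self]) (by rw [e]; omega)
  have e2 : i + ((n + 1 : ℕ) : ℤ) = i + n + 1 := by omega
  rw [e2] at h2
  have hk1 : i ≤ i + n := by omega
  have hk2 : i + n < j := by omega
  generalize i + n = k at *
  have h3 := chn_step F C (h k hk1 hk2)
  have := ang_tri (X := X) (Y := Y) v (P i) (P k) (P (k + 1))
  have := ang_tri (X := X) (Y := Y) v (P i) (P k) (P j)
  have := ang_tri (X := X) (Y := Y) v (P i) (P (k + 1)) (P j)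
  have := ang_symm (X := X) (Y := Y) v (P j) (P k)
  have := ang_symm (X := X) (Y := Y) v (P j) (P (k + 1))
  obtain ⟨p, p1, p2⟩ := F.a2 (u := v) (chn_bt F C hk1 hk2.le) (Or.inr (by omega))
    (Or.inr (by omega))
  obtain ⟨q, q1, q2⟩ := F.a2 (u := v) (chn_bt F C (i := i) (j := k + 1) (k := j) (by omega)
    (by omega)) (Or.inr (by omega)) (Or.inr (by omega))
  have := ang_ge (X := X) (x := P k) (y := P (k + 1)) p1 q1
  have := C.long k; have := F.pos
  omega

theorem chn_inj_aux (F : Fam X Y ε) (C : Chain X Y ε u P) (n : ℕ) :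
    ∀ i j : ℤ, i < j → j ≤ i + n → u i ≠ u j := by
  induction n with
  | zero => intro i j h1 h2; omega
  | succ n ih =>
    intro i j h1 h2 he
    rcases eq_or_lt_of_le (show i + 1 ≤ j by omega) with h3 | h3
    · exact C.ne i (by rw [h3]; exact he)
    have h4 := chn_out F C (v := u i) (i := i + 1) (j := j) h3.le
      fun k k1 k2 => ih i k (by omega) (by omega)
    obtain ⟨y, y1, y2⟩ := C.n0 j
    have := ang_ge (X := X) (x := P (i + 1)) (y := P j) (C.n1 i) (he ▸ y1)
    have := X.d_self (P (i + 1))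
    have h5 := chn_bt F C (i := i + 1) (j := i + 1 + 1) (k := j) (by omega) (by omega)
    have := C.long (i + 1); have := F.pos
    unfold Bt at h5; omega

theorem chn_inj (F : Fam X Y ε) (C : Chain X Y ε u P) {i j : ℤ} (h : i < j) : u i ≠ u j :=
  chn_inj_aux F C (j - i).toNat i j h (by omega)

theorem chn_left (F : Fam X Y ε) (C : Chain X Y ε u P) {i k : ℤ} (h : i ≤ k) :
    ang X Y (u k) (P i) (P k) ≤ 40 * ε :=
  chn_out F C h fun _ _ k2 => (chn_inj F C k2).symm

theorem chn_right (F : Fam X Y ε) (C : Chain X Y ε u P) {k j : ℤ} (h : k < j) :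
    ang X Y (u k) (P (k + 1)) (P j) ≤ 40 * ε :=
  chn_out F C (by omega) fun _ k1 _ => chn_inj F C (by omega)

theorem chn_inn (F : Fam X Y ε) (C : Chain X Y ε u P) {i k j : ℤ} (h1 : i ≤ k) (h2 : k < j) :
    2 * X.d (P k) (P (k + 1)) ≤ ang X Y (u k) (P i) (P j) + 84 * ε ∧
    ang X Y (u k) (P i) (P j) ≤ 2 * X.d (P k) (P (k + 1)) + 80 * ε := by
  have := chn_left F C h1
  have := chn_right F C h2
  obtain ⟨y, y1, y2⟩ := C.n0 k
  have := ang_ge (X := X) (x := P k) (y := P (k + 1)) y1 (C.n1 k)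
  have := X.d_self (P (k + 1))
  have := ang_le_two (X := X) (Y := Y) (u k) (P k) (P (k + 1))
  have := ang_tri (X := X) (Y := Y) (u k) (P i) (P k) (P j)
  have := ang_tri (X := X) (Y := Y) (u k) (P k) (P (k + 1)) (P j)
  have := ang_tri (X := X) (Y := Y) (u k) (P k) (P i) (P (k + 1))
  have := ang_tri (X := X) (Y := Y) (u k) (P i) (P j) (P (k + 1))
  have := ang_symm (X := X) (Y := Y) (u k) (P k) (P i)
  have := ang_symm (X := X) (Y := Y) (u k) (P j) (P (k + 1))
  constructor <;> omega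

theorem chn_gen (F : Fam X Y ε) {v : U} {a b m y : V} (hy : y ∈ Y v) (hm : X.d m y ≤ ε)
    (ha : ang X Y v a m ≤ 40 * ε) (hb : 90 * ε < ang X Y v b a) : X.Bt (43 * ε) a m b := by
  have := ang_tri (X := X) (Y := Y) v b m a
  have := ang_symm (X := X) (Y := Y) v m a
  obtain ⟨z, z1, z2⟩ := ang_wit (X := X) (Y := Y) (u := v) (x := b) (m := m) (θ := 43 * ε)
    (by omega)
  have h1 : X.Bt (42 * ε) a m z := by
    have := ang_spec (X := X) v a m y hy z z1
    have := X.tri a y m; have := X.symm y m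
    unfold Bt; omega
  rcases F.hyp.l1 h1 b with h | h
  · exact h.mono (by omega)
  · have := X.symm z m; have := X.symm m b; have := X.symm z b
    unfold Bt at h; omega

/-- A large angle seen from a chain comes from one of its segments. -/
theorem chn_find (F : Fam X Y ε) (C : Chain X Y ε u P) {v : U} (i j : ℤ)
    (h : 40 * ε < ang X Y v (P i) (P j)) : ∃ k, v = u k ∧
      2 * X.d (P k) (P (k + 1)) ≤ ang X Y v (P i) (P j) + 84 * ε ∧
      ang X Y v (P i) (P j) ≤ 2 * X.d (P k) (P (k + 1)) + 80 * ε := by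
  wlog hij : i ≤ j generalizing i j
  · rw [ang_symm] at h ⊢
    exact this j i h (by omega)
  by_contra hc
  have := chn_out F C (v := v) hij fun k k1 k2 e => hc ⟨k, e, e ▸ chn_inn F C k1 k2⟩
  omega

/-- One matched segment. -/
theorem chn_one (F : Fam X Y ε) (C : Chain X Y ε u P) {u' : ℤ → U} {P' : ℤ → V}
    (C' : Chain X Y ε u' P') {i j i' j' k : ℤ} (h1 : j ≤ k) (h2 : k < i)
    (ha : X.d (P k) (P i) + X.d (P' i') (P j) + 43 * ε < X.d (P' i') (P i) + X.d (P k) (P j))
    (hb : X.d (P' j') (P i) + X.d (P (k + 1)) (P j) + 43 * ε <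
      X.d (P (k + 1)) (P i) + X.d (P' j') (P j)) :
    ∃ k', u k = u' k' ∧ X.d (P k) (P (k + 1)) ≤ X.d (P' k') (P' (k' + 1)) + 1000 * ε ∧
      X.d (P' k') (P' (k' + 1)) ≤ X.d (P k) (P (k + 1)) + 1000 * ε := by
  have a1 : ang X Y (u k) (P' i') (P j) ≤ 90 * ε := by
    by_contra hc
    obtain ⟨y, y1, y2⟩ := C.n0 k
    have h := chn_gen F y1 y2 (chn_left F C h1) (not_le.1 hc)
    have := X.tri (P' i') (P k) (P i); have := X.symm (P k) (P' i')
    have := X.symm (P j) (P k); have := X.symm (P j) (P' i')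
    unfold Bt at h; omega
  have a2 : ang X Y (u k) (P' j') (P i) ≤ 90 * ε := by
    by_contra hc
    have h := chn_gen F (m := P (k + 1)) (C.n1 k) (by rw [X.d_self]; omega)
      (by rw [ang_symm]; exact chn_right F C h2) (not_le.1 hc)
    have := X.tri (P' j') (P (k + 1)) (P j); have := X.symm (P (k + 1)) (P' j')
    have := X.symm (P i) (P (k + 1)); have := X.symm (P i) (P' j')
    unfold Bt at h; omega
  obtain ⟨b1, b2⟩ := chn_inn F C h1 h2
  have := ang_tri (X := X) (Y := Y) (u k) (P' i') (P j) (P' j')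
  have := ang_tri (X := X) (Y := Y) (u k) (P j) (P i) (P' j')
  have := ang_tri (X := X) (Y := Y) (u k) (P j) (P' i') (P i)
  have := ang_tri (X := X) (Y := Y) (u k) (P' i') (P' j') (P i)
  have := ang_symm (X := X) (Y := Y) (u k) (P i) (P' j')
  have := ang_symm (X := X) (Y := Y) (u k) (P j) (P' i')
  have := C.long k; have := F.pos
  obtain ⟨k', e, c1, c2⟩ := chn_find F C' (v := u k) i' j' (by omega)
  exact ⟨k', e, by omega, by omega⟩

/-- Consecutive matched segments are consecutive. -/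
theorem chn_adj (F : Fam X Y ε) (C : Chain X Y ε u P) {u' : ℤ → U} {P' : ℤ → V}
    (C' : Chain X Y ε u' P') {k k' k'' : ℤ} (e1 : u k = u' k') (e2 : u (k + 1) = u' k'') :
    k'' = k' + 1 ∨ k' = k'' + 1 := by
  obtain ⟨y, y1, y2⟩ := C.n0 (k + 1)
  have key : ∀ m, u' m ≠ u' k' → u' m ≠ u' k'' →
      ang X Y (u' m) (P' (k' + 1)) (P' (k'' + 1)) ≤ 4 * ε := by
    intro m m1 m2
    have := F.ang_ov m1 (C'.n1 k') (e1 ▸ C.n1 k)
    have := chn_near F m2 (e2 ▸ y1) y2 (C'.n1 k'')
    have := ang_tri (X := X) (Y := Y) (u' m) (P' (k' + 1)) (P (k + 1)) (P' (k'' + 1))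
    omega
  by_contra hc
  have pos := F.pos
  rcases lt_trichotomy k' k'' with h | h | h
  · have := key (k' + 1) (C'.ne k').symm (chn_inj F C' (by omega))
    have := (chn_inn F C' (i := k' + 1) (k := k' + 1) (j := k'' + 1) le_rfl (by omega)).1
    have := C'.long (k' + 1)
    omega
  · exact C.ne k (by rw [e1, e2, h])
  · have := key (k'' + 1) (chn_inj F C' (by omega)) (C'.ne k'').symm
    have := (chn_inn F C' (i := k'' + 1) (k := k'' + 1) (j := k' + 1) le_rfl (by omega)).1
    have := C'.long (k'' + 1)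
    have := ang_symm (X := X) (Y := Y) (u' (k'' + 1)) (P' (k' + 1)) (P' (k'' + 1))
    omega

theorem chain : StmtChain := by
  intro V U X Y ε F u P C
  refine ⟨fun i j k h1 h2 => (chn_bt F C h1 h2).mono (by omega), ?_⟩
  intro u' P' l C' hl i j i' j' h
  wlog hij : j ≤ i generalizing i j i' j'
  · exact this j i j' i' (by omega) (by omega)
  have pos := F.pos
  have hl0 : 10000 * ε ≤ l := (C.long 0).trans (hl 0)
  have e : j + ((i - j).toNat : ℤ) = i := by omega
  have s0 := X.symm (P i) (P j)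
  obtain ⟨n, hn, h1, h2⟩ := ivt (fun n : ℕ => X.d (P' i') (P i) + X.d (P (j + n)) (P j) ≤
      X.d (P (j + n)) (P i) + X.d (P' i') (P j) + 43 * ε) (i - j).toNat
    (by
      have := X.tri (P' i') (P j) (P i)
      simp only [Nat.cast_zero, add_zero, X.d_self]; omega)
    (by
      have := X.tri (P' j') (P i) (P j)
      rw [e, X.d_self]; omega)
  have e2 : j + ((n + 1 : ℕ) : ℤ) = j + n + 1 := by omega
  rw [e2] at h2
  have hk1 : j ≤ j + n := by omega
  have hk2 : j + n < i := by omega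
  generalize j + n = m at *
  have st : ∀ k, X.d (P k) (P i) + X.d (P (k + 1)) (P j) ≤
      X.d (P (k + 1)) (P i) + X.d (P k) (P j) + 2 * l := by
    intro k
    have := hl k
    have := X.tri (P k) (P (k + 1)) (P i); have := X.tri (P (k + 1)) (P k) (P j)
    have := X.symm (P (k + 1)) (P k)
    omega
  have t0 := st m
  have t1 := st (m + 1)
  have t2 := st (m + 1 + 1)
  have ne : ∀ k, X.d (P' j') (P i) + X.d (P k) (P j) < X.d (P k) (P i) + X.d (P' j') (P j) →
      k ≠ i := by
    rintro k hk rfl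
    have := X.tri (P' j') (P k) (P j)
    rw [X.d_self] at hk; omega
  have n1 := ne (m + 1) (by omega)
  have n2 := ne (m + 1 + 1) (by omega)
  have b1 := chn_bt F C (i := m + 1) (j := m + 1 + 1) (k := i) (by omega) (by omega)
  have b2 := chn_bt F C (i := j) (j := m + 1) (k := m + 1 + 1) (by omega) (by omega)
  have := C.long (m + 1)
  have := X.symm (P j) (P (m + 1)); have := X.symm (P j) (P (m + 1 + 1))
  unfold Bt at b1 b2
  obtain ⟨k', e1, c1, c2⟩ := chn_one F C C' (i := i) (j := j) (i' := i') (j' := j') (k := m + 1)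
    (by omega) (by omega) (by omega) (by omega)
  obtain ⟨k'', e3, c3, c4⟩ := chn_one F C C' (i := i) (j := j) (i' := i') (j' := j')
    (k := m + 1 + 1) (by omega) (by omega) (by omega) (by omega)
  exact ⟨m + 1, k', k'', e1, e3, chn_adj F C C' e1 e3, c1, c2, c3, c4⟩

end Pool.Agent.P.MP_d7b7be_al
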