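import Pool.Agent.P.MP_d7b7be_al.Defs
import Pool.Agent.P.MP_e79ed6_al.Cone

set_option autoImplicit false

namespace Pool.Agent.P.MP_d7b7be_al

open Pool.Agent.P.MP_4b59b0_al Pool.Agent.P.MP_e79ed6_al Sp

theorem cone_lin : ∃ δ₀ K K' : ℕ, 1 ≤ K' ∧ ∀ ε s ρ : ℕ, 100 * ε ≤ s → 1 ≤ ρ →
  ∀ (V : Type) (X : Sp V) (H : Type) [Group H] [MulAction H V] (U : Type) [MulAction H U]
    (Y : U → Set V), Fam X Y ε → X.Iso H → Eqv H Y →
    ∃ Z : ConeOff X H Y δ₀ K ε s ρ (K' * (2 ^ (ρ + 1) * s)), (∀ c, ∃ x, Z.Z.d c (Z.ι x) ≤ ρ + 1) ∧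
      ∀ (f : V → V → ℕ) (C₀ : ℕ), (∀ x y z, f x z ≤ f x y + f y z) → (∀ x y, f x y ≤ X.d x y) →
        (∀ u, ∀ x ∈ Y u, ∀ y ∈ Y u, f x y ≤ C₀) →
        ∀ x y, f x y ≤ (2 ^ ρ * s + C₀) * Z.Z.d (Z.ι x) (Z.ι y) := by
  obtain ⟨δ₀, K, h⟩ := cone_hyp
  refine ⟨δ₀, K + δ₀, 2 * K + 6, by omega, fun ε s ρ hs hρ => ?_⟩
  intro V X H _ _ U _ Y F iso eqv
  let D : CD V U := ⟨X, Y, ε, s, ρ, F, hs, hρ⟩
  obtain ⟨h1, h2, h3⟩ := h V U D
  let := CD.act (D := D) eqv
  refine ⟨{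
    W := D.W
    Z := D.Z
    ι := .base
    P := {
      ω := .apex
      Ang := D.Ang
      ω_smul := fun _ _ => rfl
      ω_inj := fun _ _ h => by cases h; rfl
      symm := fun h x hx y hy => by rw [CD.an_symm]; exact h y hy x hx
      tri := fun {u a b c θ θ'} h h' x hx y hy => by
        have := h x hx _ (CD.ft_sh b); have := h' _ (CD.ft_sh b) y hy
        have := CD.an_tri (D := D) u x (D.ft b) y
        omega
      mono := fun h h' x hx y hy => (h x hx y hy).trans h'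
      smul := fun g _ _ _ _ h => CD.sm_ang eqv iso g h
      bgi := fun h => CD.bgi h2 h }
    iso := CD.sm_iso eqv iso
    hyp := h1
    ι_smul := fun _ _ => rfl
    ι_ne := fun _ _ h => by cases h
    sep := fun u u' hne => ?_
    shrink := fun x y => ?_
    pa := fun g u p E n hp hu => ?_
    pl := fun x y θ hθ => CD.pl (D := D) (CD.bgi_ang h2) x y θ fun u => hθ u x rfl y rfl
    rot := fun g u T θ a hu hT hθ hA => ?_
    shallow := fun c E hE => ?_
    sh := fun x y n hn hr => ?_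
    hd := fun x p y c hb hc => ?_ }, ?g1, ?g2⟩
  case g1 =>
    exact fun c => ⟨D.ft c, (D.Z.symm _ _).le.trans ((CD.zd c).trans (CD.lev_le c))⟩
  case g2 => exact fun f C₀ t1 t2 t3 x y => cone_lip (D := D) f C₀ t1 t2 t3 x y
  · by_contra hc
    exact hne (CD.lv (D := D) (u := u) (CD.z_le.1 (not_lt.1 hc)) (Nat.lt_succ_self _) rfl).symm
  · have := CD.s_pos (D := D)
    have hs0 : 0 < s := by change 100 ≤ s at this; omega
    have h4 := CD.zb (D := D) (x := x) (y := y) (k := X.d x y / s + 1) (by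
      have := Nat.lt_div_mul_add (a := X.d x y) hs0
      change X.d x y ≤ (X.d x y / s + 1) * s
      rw [Nat.succ_mul]; omega)
    have := Nat.mul_le_mul_left s h4
    have := Nat.mul_div_le (X.d x y) s
    rw [Nat.mul_succ] at *
    omega
  · rintro _ rfl _ rfl
    exact F.pa iso eqv n hp hu
  · have h4 := hA _ (CD.ft_sh a) _ (CD.sm_sh eqv g (CD.ft_sh a))
    have := F.rot iso eqv hu hT (D.ft a); have := F.pos
    change ang X Y u (D.ft a) (g • D.ft a) ≤ θ at h4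
    omega
  · by_cases hl : D.lev c ≤ E
    · exact Or.inr ⟨D.ft c, by have := CD.zd c; rw [D.Z.symm]; omega⟩
    · obtain ⟨u, hu⟩ := CD.exists_in (a := c) (by omega)
      refine Or.inl ⟨u, ?_, fun g hg => ?_⟩
      · have := CD.z_apex hu.ft (l := D.lev c) (j := ρ) (by change ρ + 1 ≤ _; omega)
        rwa [← hu.eq_vt] at this
      · exact (CD.sm_in eqv g hu).uniq (CD.lv (CD.z_le.1 hg) (by omega) hu)
  · rw [mul_assoc]; exact (CD.sh_base (D := D) hn hr).2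
  · obtain ⟨n, n1, n2⟩ := h1.nb hb
    obtain ⟨c₁, c1, c2⟩ := h3 _ _ _ n1
    have := D.Z.tri (.base p) n c₁
    obtain ⟨e1, e2⟩ := CD.sh_base (D := D) (x := p) (c := c₁) (n := c + (K + δ₀)) (by omega) hc
    have e3 := (CD.L_base c1 (e1.trans hc)).move_mid ((D.X.symm _ _).le.trans e2)
    refine e3.mono ?_
    have := CD.le_pw (D := D) (c + (K + δ₀))
    change 9 * ε + 2 * ((c + (K + δ₀)) * (2 ^ (c + (K + δ₀)) * s)) ≤ _
    change s ≤ 2 ^ (c + (K + δ₀)) * s at this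
    rw [mul_assoc]
    generalize 2 ^ (c + (K + δ₀)) * s = t at *
    generalize c + (K + δ₀) = r
    nlinarith

end Pool.Agent.P.MP_d7b7be_al
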