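import Pool.Agent.P.MP_e79ed6_al.Defs
import Pool.Agent.P.MP_4b59b0_al.Ang

set_option autoImplicit false

namespace Pool.Agent.P.MP_d7b7be_al

open Pool.Agent.P.MP_4b59b0_al Pool.Agent.P.MP_e79ed6_al

/-- The normalised Hamming distance. -/
noncomputable def ham {n : ℕ} (σ τ : Equiv.Perm (Fin n)) : ℝ :=
  ((Finset.univ.filter fun i => σ i ≠ τ i).card : ℝ) / n

/-- Soficity, in the finite form of the problem file. -/
def IsSofic (G : Type) [Group G] : Prop :=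
  ∀ (F : Finset G) (ε : ℝ), 0 < ε → ∃ n : ℕ, 1 ≤ n ∧ ∃ θ : F → Equiv.Perm (Fin n),
    (∀ (g h : F) (hgh : (g : G) * h ∈ F), ham (θ g * θ h) (θ ⟨g * h, hgh⟩) < ε) ∧
    (∀ he : (1 : G) ∈ F, ham (θ ⟨1, he⟩) 1 < ε) ∧
    ∀ x y : F, x ≠ y → 1 / 4 ≤ ham (θ x) (θ y)

/-- No involutions, commutative transitive, centralisers are malnormal. -/
structure Csa (H : Type) [Group H] : Prop where
  ni : ∀ g : H, g ^ 2 = 1 → g = 1
  ct : ∀ a b c : H, a ≠ 1 → Commute a b → Commute a c → Commute b c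
  mal : ∀ a x : H, a ≠ 1 → Commute a (x⁻¹ * a * x) → Commute a x

/-- A proper cobounded action on a hyperbolic graph. -/
structure Geom {V : Type} (X : Sp V) (H : Type) [Group H] [MulAction H V] (δ : ℕ) (o : V) :
    Prop where
  iso : X.Iso H
  hyp : X.Hyp δ
  pos : 1 ≤ δ
  fin : ∀ D : ℕ, {g : H | X.d o (g • o) ≤ D}.Finite
  cob : ∃ r : ℕ, ∀ x, ∃ g : H, X.d x (g • o) ≤ r

/-- The invariant of the induction. -/
def Nice (H : Type) [Group H] : Prop :=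
  Csa H ∧ ∃ (V : Type) (X : Sp V) (_ : MulAction H V) (δ : ℕ) (o : V), Geom X H δ o

/-- A broken line along the family `Y`: the segment from `P j` to `P (j + 1)` is long and follows
`Y (u j)`. -/
structure Chain {V U : Type} (X : Sp V) (Y : U → Set V) (ε : ℕ) (u : ℤ → U) (P : ℤ → V) :
    Prop where
  n0 : ∀ j, ∃ y ∈ Y (u j), X.d (P j) y ≤ ε
  n1 : ∀ j, P (j + 1) ∈ Y (u j)
  ne : ∀ j, u j ≠ u (j + 1)
  long : ∀ j, 10000 * ε ≤ X.d (P j) (P (j + 1))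

/-! ### Statements -/

/-- The small cancellation quotient. -/
def StmtQuot : Prop := ∃ C₀ : ℕ, ∀ (V : Type) (X : Sp V) (H : Type) [Group H] [MulAction H V]
  (δ : ℕ) (o : V) (U : Type) [MulAction H U] (Y : U → Set V) (ε C₁ : ℕ) (R : U → Subgroup H),
  Geom X H δ o → Csa H → Fam X Y ε → Eqv H Y →
  (∀ (g : H) (u : U) (r : H), r ∈ R u → g * r * g⁻¹ ∈ R (g • u)) →
  (∀ u r, r ∈ R u → r • u = u) → (∀ u, ∃ r ∈ R u, r ≠ 1) →
  (∀ u r, r ∈ R u → r ≠ 1 → ∀ y ∈ Y u, C₀ * ε ≤ X.d y (r • y)) →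
  (∀ (u : U) (g h : H), g • u = u → h • u = u → g * h * g⁻¹ * h⁻¹ ∈ R u) →
  (∀ (u : U) (g : H), g • u = u → g ^ 2 ∈ R u → g ∈ R u) →
  (∀ (u u' : U) (g : H), u ≠ u' → g • u = u → g • u' = u' → g ∈ R u) →
  (∀ u, ∀ x ∈ Y u, ∀ y ∈ Y u, ∃ r ∈ R u, X.d x (r • y) ≤ C₁) →
  ∃ (H' : Type) (_ : Group H') (φ : H →* H'), Function.Surjective φ ∧ Nice H' ∧
    (∀ u, ∀ r ∈ R u, φ r = 1) ∧ (∀ (g : H) (x : V), X.d x (g • x) ≤ ε → φ g = 1 → g = 1) ∧
    ∀ (g : H) (x : V) (k : ℕ), X.d x (g • x) ≤ ε → (∀ u : U, g • u ≠ u) → φ (g ^ k) = 1 →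
      g ^ k = 1

/-- Acylindricity of a proper cobounded action. -/
def StmtAcyl : Prop := ∀ (V : Type) (X : Sp V) (H : Type) [Group H] [MulAction H V] (δ : ℕ)
  (o : V), Geom X H δ o → Csa H → ∀ D : ℕ, ∃ A : ℕ, ∀ (g h : H) (x y : V),
    X.d x (g • x) ≤ D → X.d y (g • y) ≤ D → X.d x (h • x) ≤ D → X.d y (h • y) ≤ D →
    A ≤ X.d x y → Commute g h

/-- An infinite subgroup contains a loxodromic element. -/
def StmtLox : Prop := ∀ (V : Type) (X : Sp V) (H : Type) [Group H] [MulAction H V] (δ : ℕ)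
  (o : V), Geom X H δ o → ∀ K : Subgroup H, (K : Set H).Infinite → ∃ g ∈ K, X.Mv g (100 * δ)

/-- The family of the conjugates of the axis of a loxodromic element. -/
def StmtAxis : Prop := ∀ (V : Type) (X : Sp V) (H : Type) [Group H] [MulAction H V] (δ : ℕ)
  (o : V), Geom X H δ o → Csa H → ∀ a : H, X.Mv a (100 * δ) →
  ∃ (U : Type) (_ : MulAction H U) (Y : U → Set V) (u₀ : U) (p : V) (ε : ℕ),
    Fam X Y ε ∧ Eqv H Y ∧ (∀ u, ∃ g : H, u = g • u₀) ∧ (∀ g : H, g • u₀ = u₀ ↔ Commute a g) ∧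
    (∀ y, y ∈ Y u₀ ↔ ∃ c : H, Commute a c ∧ y = c • p) ∧
    (∀ y ∈ Y u₀, ∃ k : ℤ, X.d y (a ^ k • p) ≤ ε) ∧ X.Bt (2 * δ) (a⁻¹ • p) p (a • p) ∧
    ∀ (u u' : U) (g : H), u ≠ u' → g • u = u → g • u' = u' → g = 1

/-- Broken lines are nearly geodesic, and two of them which overlap share two segments. -/
def StmtChain : Prop := ∀ (V U : Type) (X : Sp V) (Y : U → Set V) (ε : ℕ), Fam X Y ε →
  ∀ (u : ℤ → U) (P : ℤ → V), Chain X Y ε u P →
    (∀ i j k, i ≤ j → j ≤ k → X.Bt (10 * ε) (P i) (P j) (P k)) ∧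
    ∀ (u' : ℤ → U) (P' : ℤ → V) (l : ℕ), Chain X Y ε u' P' →
      (∀ j, X.d (P j) (P (j + 1)) ≤ l) → ∀ i j i' j' : ℤ,
      X.d (P' i') (P j) + X.d (P' j') (P i) + 10 * l < X.d (P' i') (P i) + X.d (P' j') (P j) →
      ∃ k k' k'' : ℤ, u k = u' k' ∧ u (k + 1) = u' k'' ∧ (k'' = k' + 1 ∨ k' = k'' + 1) ∧
        X.d (P k) (P (k + 1)) ≤ X.d (P' k') (P' (k' + 1)) + 1000 * ε ∧
        X.d (P' k') (P' (k' + 1)) ≤ X.d (P k) (P (k + 1)) + 1000 * ε ∧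
        X.d (P (k + 1)) (P (k + 1 + 1)) ≤ X.d (P' k'') (P' (k'' + 1)) + 1000 * ε ∧
        X.d (P' k'') (P' (k'' + 1)) ≤ X.d (P (k + 1)) (P (k + 1 + 1)) + 1000 * ε

/-- An element becomes of finite order. -/
def StmtT : Prop := ∀ (H : Type) [Group H], Nice H → ∀ (g : H) (F : Finset H), 1 ∉ F →
  ∃ (H' : Type) (_ : Group H') (φ : H →* H'), Function.Surjective φ ∧ Nice H' ∧
    (∀ f ∈ F, φ f ≠ 1) ∧ IsOfFinOrder (φ g)

/-- An infinite nonabelian subgroup swallows an element. -/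
def StmtS : Prop := ∀ (H : Type) [Group H], Nice H → ∀ (K : Subgroup H) (s : H) (F : Finset H),
  1 ∉ F → (K : Set H).Infinite → (∃ a ∈ K, ∃ b ∈ K, ¬ Commute a b) →
  ∃ (H' : Type) (_ : Group H') (φ : H →* H'), Function.Surjective φ ∧ Nice H' ∧
    (∀ f ∈ F, φ f ≠ 1) ∧ ∃ k ∈ K, φ k = φ s

/-- The first group. -/
def StmtBase : Prop := ∃ (H : Type) (_ : Group H), Nice H ∧ ∃ F : Finset H, 1 ∉ F ∧
  ∀ (G : Type) [Group G] (φ : H →* G), (∀ f ∈ F, φ f ≠ 1) → ¬ Sofic G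

/-- The limit group. -/
def StmtLimit : Prop := ∃ (G : Type) (_ : Group G), ¬ Sofic G ∧ (∀ g : G, IsOfFinOrder g) ∧
  (∀ A : Finset G, Subgroup.closure (A : Set G) = ⊤ ∨
    ((Subgroup.closure (A : Set G) : Subgroup G) : Set G).Finite) ∧
  ∀ m : ℕ, 1 ≤ m → ∃ g : G, g ^ m ≠ 1

/-- Amplification. -/
def StmtAmp : Prop := ∀ (G : Type) [Group G], IsSofic G → Sofic G

/-- Locally finite groups are sofic. -/
def StmtLf : Prop := ∀ (G : Type) [Group G],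
  (∀ A : Finset G, ((Subgroup.closure (A : Set G) : Subgroup G) : Set G).Finite) →
  IsSofic G

/-- The final assembly. -/
theorem final (h1 : StmtLimit) (h2 : StmtAmp) (h3 : StmtLf) :
    ∃ (G : Type) (_ : Group G), (∀ g : G, IsOfFinOrder g) ∧ ¬ IsSofic G ∧
      (∀ K : Subgroup G, K ≠ ⊤ → IsSofic K) ∧ ∀ m : ℕ, 1 ≤ m → ∃ g : G, g ^ m ≠ 1 := by
  classical
  obtain ⟨G, _, a1, a2, a3, a4⟩ := h1
  refine ⟨G, inferInstance, a2, fun h => a1 (h2 G h), fun K hK => h3 K fun A => ?_, a4⟩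
  have e : Subgroup.closure ((A.image K.subtype : Finset G) : Set G) =
      (Subgroup.closure (A : Set K)).map K.subtype := by
    rw [MonoidHom.map_closure, Finset.coe_image]
  rcases a3 (A.image K.subtype) with h | h
  · exfalso
    apply hK
    rw [eq_top_iff, ← h, e]
    exact Subgroup.map_subtype_le _
  · rw [e, Subgroup.coe_map] at h
    exact h.of_finite_image (K.subtype_injective.injOn)

end Pool.Agent.P.MP_d7b7be_al
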