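import Pool.Agent.P.MP_d7b7be_al.Defs

set_option autoImplicit false

namespace Pool.Agent.P.MP_d7b7be_al

open Pool.Agent.P.MP_4b59b0_al Pool.Agent.P.MP_e79ed6_al Sp

section

variable {H₀ : Type} [Group H₀]

/-- A stage of the construction: a kernel and a finite set of protected elements. -/
def LimGood (F : Finset H₀) (N : Subgroup H₀) (W : Finset H₀) : Prop :=
  F ⊆ W ∧ (∀ w ∈ W, w ∉ N) ∧
    ∃ (H : Type) (_ : Group H) (φ : H₀ →* H), Function.Surjective φ ∧ φ.ker = N ∧ Nice H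

/-- The trichotomy for the subgroup generated by `A` and the element `s`. -/
def LimTri (A : Finset H₀) (s : H₀) (N : Subgroup H₀) : Prop :=
  (∃ B : Set H₀, B.Finite ∧ ∀ k ∈ Subgroup.closure (A : Set H₀), ∃ b ∈ B, b⁻¹ * k ∈ N) ∨
  (∀ k ∈ Subgroup.closure (A : Set H₀), ∀ k' ∈ Subgroup.closure (A : Set H₀),
    (k * k')⁻¹ * (k' * k) ∈ N) ∨
  ∃ k ∈ Subgroup.closure (A : Set H₀), k⁻¹ * s ∈ N

theorem LimTri.mono {A : Finset H₀} {s : H₀} {N N' : Subgroup H₀} (h : LimTri A s N)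
    (hN : N ≤ N') : LimTri A s N' := by
  rcases h with ⟨B, hB, h⟩ | h | ⟨k, hk, h⟩
  · exact Or.inl ⟨B, hB, fun k hk => (h k hk).imp fun b hb => ⟨hb.1, hN hb.2⟩⟩
  · exact Or.inr (Or.inl fun k hk k' hk' => hN (h k hk k' hk'))
  · exact Or.inr (Or.inr ⟨k, hk, hN h⟩)

theorem lim_quot {F W : Finset H₀} {H H' : Type} [Group H] [Group H'] [DecidableEq H]
    (φ : H₀ →* H) (ψ : H →* H') (hφ : Function.Surjective φ) (hψ : Function.Surjective ψ)
    (hF : F ⊆ W) (hn : Nice H') (hp : ∀ f ∈ W.image φ, ψ f ≠ 1) :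
    LimGood F (ψ.comp φ).ker W ∧ φ.ker ≤ (ψ.comp φ).ker := by
  refine ⟨⟨hF, fun w hw h => hp (φ w) (Finset.mem_image_of_mem _ hw) h,
    H', inferInstance, ψ.comp φ, hψ.comp hφ, rfl, hn⟩, fun g hg => ?_⟩
  rw [MonoidHom.mem_ker] at hg ⊢
  rw [MonoidHom.comp_apply, hg, map_one]

theorem lim_one {W : Finset H₀} {H : Type} [Group H] [DecidableEq H] (φ : H₀ →* H)
    (hW : ∀ w ∈ W, w ∉ φ.ker) : (1 : H) ∉ W.image φ := by
  intro h
  obtain ⟨w, hw, e⟩ := Finset.mem_image.1 h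
  exact hW w hw e

theorem lim_stepT (hT : StmtT) {F W : Finset H₀} {N : Subgroup H₀} (h : LimGood F N W) (s : H₀) :
    ∃ N', LimGood F N' W ∧ N ≤ N' ∧ ∃ n, 0 < n ∧ s ^ n ∈ N' := by
  classical
  obtain ⟨hF, hW, H, _, φ, hφ, rfl, hn⟩ := h
  obtain ⟨H', _, ψ, hψ, hn', hp, hs⟩ := hT H hn (φ s) (W.image φ) (lim_one φ hW)
  obtain ⟨h1, h2⟩ := lim_quot φ ψ hφ hψ hF hn' hp
  obtain ⟨n, hn0, e⟩ := isOfFinOrder_iff_pow_eq_one.1 hs
  refine ⟨_, h1, h2, n, hn0, ?_⟩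
  rw [MonoidHom.mem_ker, map_pow, MonoidHom.comp_apply, e]

theorem lim_stepS (hS : StmtS) {F W : Finset H₀} {N : Subgroup H₀} (h : LimGood F N W)
    (A : Finset H₀) (s : H₀) : ∃ N', LimGood F N' W ∧ N ≤ N' ∧ LimTri A s N' := by
  classical
  have h0 := h
  obtain ⟨hF, hW, H, _, φ, hφ, rfl, hn⟩ := h
  by_cases hK : (((Subgroup.closure (A : Set H₀)).map φ : Subgroup H) : Set H).Finite
  · refine ⟨_, h0, le_rfl, Or.inl ⟨Function.surjInv hφ '' _, hK.image _, fun k hk => ?_⟩⟩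
    refine ⟨_, ⟨φ k, ⟨k, hk, rfl⟩, rfl⟩, ?_⟩
    rw [MonoidHom.mem_ker, map_mul, map_inv, Function.surjInv_eq hφ, inv_mul_cancel]
  by_cases hc : ∃ a ∈ (Subgroup.closure (A : Set H₀)).map φ,
      ∃ b ∈ (Subgroup.closure (A : Set H₀)).map φ, ¬ Commute a b
  · obtain ⟨H', _, ψ, hψ, hn', hp, k, ⟨k₀, hk₀, rfl⟩, e⟩ :=
      hS H hn _ (φ s) (W.image φ) (lim_one φ hW) hK hc
    obtain ⟨h1, h2⟩ := lim_quot φ ψ hφ hψ hF hn' hp
    refine ⟨_, h1, h2, Or.inr (Or.inr ⟨k₀, hk₀, ?_⟩)⟩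
    rw [MonoidHom.mem_ker, map_mul, map_inv, MonoidHom.comp_apply, MonoidHom.comp_apply, e,
      inv_mul_cancel]
  · refine ⟨_, h0, le_rfl, Or.inr (Or.inl fun k hk k' hk' => ?_)⟩
    have : Commute (φ k) (φ k') := by
      by_contra hc'
      exact hc ⟨_, ⟨k, hk, rfl⟩, _, ⟨k', hk', rfl⟩, hc'⟩
    rw [MonoidHom.mem_ker, map_mul, map_inv, map_mul, map_mul, this.eq, inv_mul_cancel]

theorem lim_stepP (hL : StmtLox) (hA : StmtAmp) (hF : StmtLf) {F W : Finset H₀}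
    {N : Subgroup H₀}
    (hB : ∀ (G : Type) [Group G] (φ : H₀ →* G), (∀ f ∈ F, φ f ≠ 1) → ¬ Sofic G)
    (h : LimGood F N W) (m : ℕ) :
    ∃ W', LimGood F N W' ∧ W ⊆ W' ∧ (1 ≤ m → ∃ g : H₀, g ^ m ∈ W') := by
  classical
  have h0 := h
  by_cases hm : 1 ≤ m
  swap
  · exact ⟨W, h0, subset_rfl, fun h => absurd h hm⟩
  obtain ⟨hFW, hW, H, _, φ, hφ, rfl, hn⟩ := h
  have hinf : ((⊤ : Subgroup H) : Set H).Infinite := by
    intro hfin
    refine hB H φ (fun f hf => hW f (hFW hf)) (hA H (hF H fun A => hfin.subset ?_))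
    exact fun _ _ => trivial
  have hn0 := hn
  obtain ⟨_, V, X, _, δ, o, hG⟩ := hn
  obtain ⟨g, _, hg⟩ := hL V X H δ o hG ⊤ hinf
  obtain ⟨g₀, rfl⟩ := hφ g
  have hp := hG.pos
  have e : 100 * δ = 97 * δ + 3 * δ := by ring
  rw [e] at hg
  have h1 := Mv.pow hG.iso hG.hyp hg (by omega) m o
  have h2 : φ g₀ ^ m ≠ 1 := by
    intro h
    rw [h, one_smul, X.d_self] at h1
    have : 1 * (97 * δ) ≤ m * (97 * δ) := Nat.mul_le_mul_right _ hm
    omega
  refine ⟨insert (g₀ ^ m) W, ⟨hFW.trans (Finset.subset_insert _ _), fun w hw => ?_,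
    H, inferInstance, φ, hφ, rfl, hn0⟩, Finset.subset_insert _ _,
    fun _ => ⟨g₀, Finset.mem_insert_self _ _⟩⟩
  rcases Finset.mem_insert.1 hw with rfl | hw
  · rw [MonoidHom.mem_ker, map_pow]; exact h2
  · exact hW w hw

theorem lim_countable (h : Nice H₀) : Countable H₀ := by
  obtain ⟨_, V, X, _, δ, o, hG⟩ := h
  rw [← Set.countable_univ_iff]
  refine (Set.countable_iUnion fun D : ℕ => (hG.fin D).countable).mono fun g _ => ?_
  exact Set.mem_iUnion.2 ⟨X.d o (g • o), Nat.le_refl _⟩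

end

theorem lim_fin_of_comm {G : Type} [Group G] (ht : ∀ g : G, IsOfFinOrder g) (A : Finset G)
    (hc : ∀ x ∈ (A : Set G), ∀ y ∈ (A : Set G), x * y = y * x) :
    ((Subgroup.closure (A : Set G) : Subgroup G) : Set G).Finite := by
  have h1 : IsMulTorsion (Subgroup.closure (A : Set G)) := IsMulTorsion.subgroup ht _
  have h2 := Subgroup.isMulCommutative_closure hc
  let : CommGroup (Subgroup.closure (A : Set G)) :=
    { (inferInstance : Group (Subgroup.closure (A : Set G))) with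
      mul_comm := h2.is_comm.comm }
  have h3 : Group.FG (Subgroup.closure (A : Set G)) := Group.closure_finset_fg A
  have h4 : Finite (Subgroup.closure (A : Set G)) := CommGroup.finite_of_fg_isMulTorsion _ h1
  exact Set.toFinite _

theorem limit (hB : StmtBase) (hT : StmtT) (hS : StmtS) (hL : StmtLox) (hA : StmtAmp)
    (hF : StmtLf) : StmtLimit := by
  classical
  obtain ⟨H₀, _, hn, F, hF1, hB⟩ := hB
  have := lim_countable hn
  have step : ∀ (p : {p : Subgroup H₀ × Finset H₀ // LimGood F p.1 p.2})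
      (t : Finset H₀ × H₀ × ℕ), ∃ q : {p : Subgroup H₀ × Finset H₀ // LimGood F p.1 p.2},
      p.1.1 ≤ q.1.1 ∧ p.1.2 ⊆ q.1.2 ∧ (∃ n, 0 < n ∧ t.2.1 ^ n ∈ q.1.1) ∧
        LimTri t.1 t.2.1 q.1.1 ∧ (1 ≤ t.2.2 → ∃ g : H₀, g ^ t.2.2 ∈ q.1.2) := by
    rintro ⟨⟨N, W⟩, h⟩ ⟨A, s, m⟩
    obtain ⟨N₁, h1, l1, n, hn0, e1⟩ := lim_stepT hT h s
    obtain ⟨N₂, h2, l2, e2⟩ := lim_stepS hS h1 A s
    obtain ⟨W', h3, l3, e3⟩ := lim_stepP hL hA hF hB h2 m
    exact ⟨⟨(N₂, W'), h3⟩, l1.trans l2, l3, ⟨n, hn0, l2 e1⟩, e2, e3⟩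
  choose nx n1 n2 n3 n4 n5 using step
  obtain ⟨τ, hτ⟩ := exists_surjective_nat (Finset H₀ × H₀ × ℕ)
  have g0 : LimGood F ⊥ F := ⟨subset_rfl, fun w hw h => hF1 (by rwa [Subgroup.mem_bot.1 h] at hw),
    H₀, inferInstance, MonoidHom.id _, Function.surjective_id, MonoidHom.ker_id, hn⟩
  let S : ℕ → {p : Subgroup H₀ × Finset H₀ // LimGood F p.1 p.2} := fun i =>
    Nat.rec ⟨(⊥, F), g0⟩ (fun i p => nx p (τ i)) i
  have hS' : ∀ i, S (i + 1) = nx (S i) (τ i) := fun i => rfl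
  have mN : Monotone fun i => (S i).1.1 := monotone_nat_of_le_succ fun i => n1 (S i) (τ i)
  have mW : Monotone fun i => (S i).1.2 := monotone_nat_of_le_succ fun i => n2 (S i) (τ i)
  set N : Subgroup H₀ := ⨆ i, (S i).1.1 with hN
  have mem : ∀ γ, γ ∈ N ↔ ∃ i, γ ∈ (S i).1.1 := fun γ =>
    Subgroup.mem_iSup_of_directed mN.directed_le
  have le : ∀ i, (S i).1.1 ≤ N := fun i γ h => (mem γ).2 ⟨i, h⟩
  have hnorm : N.Normal := by
    refine ⟨fun γ hγ g => ?_⟩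
    obtain ⟨i, hi⟩ := (mem _).1 hγ
    obtain ⟨_, _, H, _, φ, _, e, _⟩ := (S i).2
    refine le i ?_
    rw [← e] at hi ⊢
    exact φ.normal_ker.conj_mem γ hi g
  have prot : ∀ i, ∀ w ∈ (S i).1.2, w ∉ N := by
    intro i w hw h
    obtain ⟨j, hj⟩ := (mem _).1 h
    exact (S (max i j)).2.2.1 w (mW (le_max_left i j) hw) (mN (le_max_right i j) hj)
  have tor : ∀ g : H₀ ⧸ N, IsOfFinOrder g := by
    intro g
    obtain ⟨s, rfl⟩ := QuotientGroup.mk_surjective g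
    obtain ⟨i, hi⟩ := hτ (∅, s, 0)
    obtain ⟨n, hn0, e⟩ := n3 (S i) (τ i)
    rw [← hS', hi] at e
    refine isOfFinOrder_iff_pow_eq_one.2 ⟨n, hn0, ?_⟩
    rw [← QuotientGroup.mk_pow, QuotientGroup.eq_one_iff]
    exact le (i + 1) e
  refine ⟨H₀ ⧸ N, inferInstance, hB _ (QuotientGroup.mk' N) fun f hf h => ?_, tor, fun A => ?_,
    fun m hm => ?_⟩
  · exact prot 0 f hf ((QuotientGroup.eq_one_iff f).1 h)
  · let A₀ : Finset H₀ := A.image Quotient.out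
    have eA : (QuotientGroup.mk' N) '' (A₀ : Set H₀) = (A : Set (H₀ ⧸ N)) := by
      rw [Finset.coe_image, Set.image_image]
      simp
    have eC : Subgroup.closure (A : Set (H₀ ⧸ N)) =
        (Subgroup.closure (A₀ : Set H₀)).map (QuotientGroup.mk' N) := by
      rw [MonoidHom.map_closure, eA]
    have tri : ∀ s, LimTri A₀ s N := by
      intro s
      obtain ⟨i, hi⟩ := hτ (A₀, s, 0)
      have := n4 (S i) (τ i)
      rw [← hS', hi] at this
      exact this.mono (le (i + 1))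
    by_cases hall : ∀ s, ∃ k ∈ Subgroup.closure (A₀ : Set H₀), k⁻¹ * s ∈ N
    · left
      rw [eq_top_iff, eC]
      intro g _
      obtain ⟨s, rfl⟩ := QuotientGroup.mk_surjective g
      obtain ⟨k, hk, e⟩ := hall s
      exact ⟨k, hk, QuotientGroup.eq.2 e⟩
    · right
      obtain ⟨s, hs⟩ := not_forall.1 hall
      rcases tri s with ⟨B, hBf, h⟩ | h | h
      · refine (hBf.image (QuotientGroup.mk' N)).subset ?_
        rw [eC]
        rintro _ ⟨k, hk, rfl⟩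
        obtain ⟨b, hb, e⟩ := h k hk
        exact ⟨b, hb, QuotientGroup.eq.2 e⟩
      · refine lim_fin_of_comm tor A ?_
        rw [← eA]
        rintro _ ⟨x, hx, rfl⟩ _ ⟨y, hy, rfl⟩
        rw [← map_mul, ← map_mul]
        exact QuotientGroup.eq.2
          (h x (Subgroup.subset_closure hx) y (Subgroup.subset_closure hy))
      · exact absurd h hs
  · obtain ⟨i, hi⟩ := hτ (∅, 1, m)
    have := n5 (S i) (τ i)
    rw [← hS', hi] at this
    obtain ⟨g, hg⟩ := this hm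
    refine ⟨(g : H₀ ⧸ N), fun h => prot (i + 1) (g ^ m) hg ?_⟩
    rwa [← QuotientGroup.mk_pow, QuotientGroup.eq_one_iff] at h

end Pool.Agent.P.MP_d7b7be_al
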