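import Pool.Agent.P.MP_d7b7be_al.Defs
import Pool.Agent.P.MP_4b59b0_al.Isom

set_option autoImplicit false

namespace Pool.Agent.P.MP_d7b7be_al

open Pool.Agent.P.MP_4b59b0_al Pool.Agent.P.MP_e79ed6_al Sp

section

variable {V : Type} {X : Sp V} {H : Type} [Group H] [MulAction H V] {δ : ℕ}

theorem lox_conj_le (iso : X.Iso H) (g k : H) (x o : V) :
    X.d o ((k⁻¹ * g * k) • o) ≤ X.d x (g • x) + 2 * X.d x (k • o) := by
  rw [iso.disp_conj', X.symm x (k • o)]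
  exact iso.disp_move g _ _

theorem lox_pair_fin (cs : Csa H) {B : Set H} (hB : B.Finite) {g h : H} (hc : ¬ Commute g h) :
    {z : H | z⁻¹ * g * z ∈ B ∧ z⁻¹ * h * z ∈ B}.Finite := by
  refine Set.Finite.of_injOn (f := fun z => (z⁻¹ * g * z, z⁻¹ * h * z)) (t := B ×ˢ B)
    (fun z hz => hz) ?_ (hB.prod hB)
  intro z _ w _ e
  simp only [Prod.mk.injEq] at e
  by_contra hne
  have key : ∀ a : H, z⁻¹ * a * z = w⁻¹ * a * w → Commute (z * w⁻¹) a := by
    intro a ha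
    have h1 : a * z = z * (w⁻¹ * a * w) := by rw [← ha]; group
    show z * w⁻¹ * a = a * (z * w⁻¹)
    rw [← mul_assoc a, h1]; group
  exact hc (cs.ct _ _ _ (fun h1 => hne (mul_inv_eq_one.1 h1)) (key g e.1) (key h e.2))

theorem acyl : StmtAcyl := by
  intro V X H _ _ δ o ge cs D
  obtain ⟨r, hr⟩ := ge.cob
  have iso := ge.iso
  set B : Set H := {g : H | X.d o (g • o) ≤ D + 2 * r} with hBdef
  have hB : B.Finite := ge.fin _
  have hZ : (⋃ p ∈ {p : H × H | p ∈ B ×ˢ B ∧ ¬ Commute p.1 p.2},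
      {z : H | z⁻¹ * p.1 * z ∈ B ∧ z⁻¹ * p.2 * z ∈ B}).Finite :=
    Set.Finite.biUnion ((hB.prod hB).subset fun p hp => hp.1) fun p hp => lox_pair_fin cs hB hp.2
  obtain ⟨M, hM⟩ := (hZ.image fun z => X.d o (z • o)).bddAbove
  refine ⟨2 * r + M + 1, fun g h x y gx gy hx hy hA => ?_⟩
  by_contra hc
  obtain ⟨k, hk⟩ := hr x
  obtain ⟨l, hl⟩ := hr y
  have m1 : ∀ a : H, X.d x (a • x) ≤ D → k⁻¹ * a * k ∈ B := fun a ha => by
    have := lox_conj_le iso a k x o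
    show X.d o _ ≤ _
    omega
  have m2 : ∀ a : H, X.d y (a • y) ≤ D → (k⁻¹ * l)⁻¹ * (k⁻¹ * a * k) * (k⁻¹ * l) ∈ B :=
    fun a ha => by
      have := lox_conj_le iso a l y o
      have e : (k⁻¹ * l)⁻¹ * (k⁻¹ * a * k) * (k⁻¹ * l) = l⁻¹ * a * l := by group
      rw [e]
      show X.d o _ ≤ _
      omega
  have hc' : ¬ Commute (k⁻¹ * g * k) (k⁻¹ * h * k) := fun h1 => hc (by
    have h2 := h1.conj k
    simpa [mul_assoc] using h2)
  have h3 : X.d o ((k⁻¹ * l) • o) ≤ M := by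
    refine hM ⟨k⁻¹ * l, ?_, rfl⟩
    simp only [Set.mem_iUnion]
    exact ⟨(k⁻¹ * g * k, k⁻¹ * h * k), ⟨⟨m1 g gx, m1 h hx⟩, hc'⟩, m2 g gy, m2 h hy⟩
  rw [mul_smul, iso.inv'] at h3
  have := X.tri x (k • o) y
  have := X.tri (k • o) (l • o) y
  have := X.symm y (l • o)
  omega

theorem lox_ell (iso : X.Iso H) (hδ : X.Hyp δ) (pos : 1 ≤ δ) {g : H} (hg : ¬ X.Mv g (100 * δ))
    (x : V) : X.d (g⁻¹ • x) (g • x) ≤ X.d x (g • x) + 103 * δ := by
  obtain ⟨z, hz⟩ : ∃ z, X.d z (g • z) < 100 * δ := by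
    by_contra h
    exact hg fun z => not_lt.1 fun h1 => h ⟨z, h1⟩
  obtain ⟨m, h1, h2⟩ := X.exists_mid x (g • x)
  have h3 : X.d m (g • m) ≤ 103 * δ := by
    by_cases hl : 2 * δ + 1 < X.d m (g • m)
    · have := minc iso hδ (mid iso hδ h1 h2 hl).1 z
      omega
    · omega
  have := X.tri (g⁻¹ • x) (g⁻¹ • m) (g • x)
  have := X.tri (g⁻¹ • m) m (g • x)
  have := iso g⁻¹ x m
  have := iso.inv g m m
  unfold Bt at h1
  omega

theorem lox_key (iso : X.Iso H) (hδ : X.Hyp δ) (pos : 1 ≤ δ) {a s : H} {x : V}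
    (ha : ¬ X.Mv a (100 * δ)) (hs : ¬ X.Mv s (100 * δ)) (hg : ¬ X.Mv (a * s) (100 * δ))
    (h1 : 120 * δ ≤ X.d x (a • x)) (h2 : X.d x (a • x) ≤ X.d x (s • x) + 4 * δ)
    (h3 : X.d x (s • x) ≤ X.d x (a • x)) :
    X.d (a • x) (s • x) + 4 * δ ≤ X.d x (a • x) + X.d x (s • x) := by
  by_contra hc
  have e1 := lox_ell iso hδ pos ha x
  have e2 := lox_ell iso hδ pos hs x
  have e3 := lox_ell iso hδ pos hg x
  have i1 := iso.disp_inv a x
  have i2 := iso.disp_inv s x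
  have i3 := iso.disp_inv (a * s) x
  have j1 : X.d (a⁻¹ • x) (s • x) = X.d x ((a * s) • x) := by rw [iso.inv, mul_smul]
  have j2 : X.d (a • x) ((a * s) • x) = X.d x (s • x) := by rw [mul_smul, iso]
  have j3 : X.d ((a * s)⁻¹ • x) (s⁻¹ • x) = X.d x (a • x) := by
    rw [mul_inv_rev, mul_smul, iso, iso.inv]
  have s1 := X.symm x (a • x)
  have s2 := X.symm x (s • x)
  have s3 := X.symm x ((a * s) • x)
  have s4 := X.symm (s • x) (s⁻¹ • x)
  have s5 := X.symm (a • x) (a⁻¹ • x)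
  have s6 := X.symm (s • x) (a⁻¹ • x)
  have s7 := X.symm (s⁻¹ • x) ((a * s) • x)
  have s8 := X.symm (s⁻¹ • x) ((a * s)⁻¹ • x)
  have s9 := X.symm ((a * s) • x) ((a * s)⁻¹ • x)
  have s10 := X.symm x (s⁻¹ • x)
  have s11 := X.symm ((a * s) • x) (a • x)
  have g1 : X.d x (a • x) + X.d x (s • x) < X.d (a • x) (s⁻¹ • x) + 5 * δ := by
    rcases hδ (a • x) (s • x) x (s⁻¹ • x) with h | h <;> omega
  have g2 : X.d x (a • x) + X.d x (s • x) < X.d (a⁻¹ • x) (s • x) + 5 * δ := by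
    rcases hδ (a • x) (s • x) x (a⁻¹ • x) with h | h <;> omega
  have g3 : X.d x ((a * s) • x) + X.d x (s • x) < X.d ((a * s) • x) (s⁻¹ • x) + 6 * δ := by
    rcases hδ (a • x) (s⁻¹ • x) x ((a * s) • x) with h | h <;> omega
  rcases hδ ((a * s) • x) (s⁻¹ • x) x ((a * s)⁻¹ • x) with h | h <;> omega

theorem lox_step (iso : X.Iso H) (hδ : X.Hyp δ) (pos : 1 ≤ δ) {K : Subgroup H}
    (hK : ∀ g ∈ K, ¬ X.Mv g (100 * δ)) {a : H} (ha : a ∈ K) {x m : V}
    (h1 : 120 * δ ≤ X.d x (a • x)) (hm : X.Bt 0 x m (a • x)) (hd : X.d x m = 2 * δ)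
    {s : H} (hs : s ∈ K) (h3 : X.d x (s • x) ≤ X.d x (a • x)) :
    X.d m (s • m) < X.d x (a • x) := by
  by_cases h2 : X.d x (a • x) ≤ X.d x (s • x) + 4 * δ
  · have key : ∀ t ∈ K, X.d x (t • x) = X.d x (s • x) → X.Bt δ x m (t • x) := by
      intro t ht e
      have k1 := lox_key iso hδ pos (hK a ha) (hK t ht) (hK _ (K.mul_mem ha ht)) h1
        (by omega) (by omega)
      have := X.symm m (a • x)
      have := X.tri x m (a • x)
      rcases hδ.l1 hm (t • x) with h | h <;> unfold Bt at * <;> omega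
    have b1 := key s hs rfl
    have b2 := iso.bt s (key s⁻¹ (K.inv_mem hs) (iso.disp_inv s x))
    rw [smul_inv_smul] at b2
    have b3 := b2.symm
    have := iso s x m
    have := X.symm (s • m) (s • x)
    rcases hδ.l2 b1 b3 with h | h <;> unfold Bt at * <;> omega
  · have := iso.disp_move s m x
    have := X.symm m x
    omega

theorem lox_bdd (iso : X.Iso H) (hδ : X.Hyp δ) (pos : 1 ≤ δ) (o : V) {K : Subgroup H}
    (hK : ∀ g ∈ K, ¬ X.Mv g (100 * δ)) (S : Finset H) (hS : ∀ s ∈ S, s ∈ K) :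
    ∃ x : V, ∀ s ∈ S, X.d x (s • x) ≤ 120 * δ := by
  classical
  have hex : ∃ n : ℕ, ∃ x : V, ∀ s ∈ S, X.d x (s • x) ≤ n :=
    ⟨S.sup fun s => X.d o (s • o), o, fun s hs => Finset.le_sup (f := fun s => X.d o (s • o)) hs⟩
  obtain ⟨x, hx⟩ := Nat.find_spec hex
  by_cases hD : Nat.find hex ≤ 120 * δ
  · exact ⟨x, fun s hs => (hx s hs).trans hD⟩
  exfalso
  have hmin := Nat.find_min hex (m := Nat.find hex - 1) (by omega)
  obtain ⟨a, ha, h1⟩ : ∃ a ∈ S, Nat.find hex - 1 < X.d x (a • x) := by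
    by_contra h
    exact hmin ⟨x, fun s hs => not_lt.1 fun h1 => h ⟨s, hs, h1⟩⟩
  have h2 := hx a ha
  obtain ⟨m, hd, hm⟩ := X.geod' x (a • x) (2 * δ) (by omega)
  refine hmin ⟨m, fun s hs => ?_⟩
  have h3 := hx s hs
  have := lox_step iso hδ pos hK (hS a ha) (by omega) hm hd (hS s hs) (by omega)
  omega

theorem lox : StmtLox := by
  classical
  intro V X H _ _ δ o ge K hK
  by_contra hc
  have hK' : ∀ g ∈ K, ¬ X.Mv g (100 * δ) := fun g hg h => hc ⟨g, hg, h⟩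
  obtain ⟨r, hr⟩ := ge.cob
  have hB := ge.fin (120 * δ + 2 * r)
  obtain ⟨S, hS, hcard⟩ := hK.exists_subset_card_eq (hB.toFinset.card + 1)
  obtain ⟨x, hx⟩ := lox_bdd ge.iso ge.hyp ge.pos o hK' S fun s hs => hS hs
  obtain ⟨k, hk⟩ := hr x
  have h1 : S.card ≤ hB.toFinset.card := by
    refine Finset.card_le_card_of_injOn (fun s => k⁻¹ * s * k) (fun s hs => ?_) ?_
    · have := lox_conj_le ge.iso s k x o
      have := hx s hs
      simp only [Set.Finite.coe_toFinset, Set.mem_ofPred_eq]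
      omega
    · intro s _ t _ e
      simpa using e
  omega

end

end Pool.Agent.P.MP_d7b7be_al
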