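import Pool.Agent.P.MP_d7b7be_al.Defs
import Pool.Agent.P.MP_4b59b0_al.Type1

/-! The swallowing step: an infinite nonabelian subgroup swallows a given element. -/

set_option autoImplicit false

namespace Pool.Agent.P.MP_d7b7be_al

open Pool.Agent.P.MP_4b59b0_al Pool.Agent.P.MP_e79ed6_al Sp

theorem sS_seq {H : Type} [Group H] (t : ℤ → H) :
    ∃ g : ℤ → H, g 0 = 1 ∧ ∀ j, g (j + 1) = g j * t j := by
  refine ⟨fun j => Int.inductionOn' (motive := fun _ => H) j 0 1 (fun k _ x => x * t k)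
    (fun k _ x => x * (t (k - 1))⁻¹), Int.inductionOn'_self, fun j => ?_⟩
  rcases le_or_gt 0 j with h | h
  · exact Int.inductionOn'_add_one h
  · obtain ⟨k, rfl⟩ : ∃ k, j = k - 1 := ⟨j + 1, by omega⟩
    simp only [sub_add_cancel]
    rw [Int.inductionOn'_sub_one (by omega), inv_mul_cancel_right]

theorem sS_per {H W : Type} [Group H] [MulAction H W] {w : H} {L : ℤ} {u : ℤ → W}
    (h : ∀ j, u (j + L) = w • u j) (t j : ℤ) : u (j + t * L) = w ^ t • u j := by
  induction t using Int.induction_on with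
  | zero => simp
  | succ n ih => rw [add_mul, one_mul, ← add_assoc, h, ih, smul_smul, ← zpow_one_add, add_comm 1]
  | pred n ih =>
    rw [show j + -(n : ℤ) * L = j + (-(n : ℤ) - 1) * L + L by ring, h] at ih
    rw [sub_eq_neg_add _ (1 : ℤ), zpow_add, mul_smul, ← ih, zpow_neg_one, inv_smul_smul,
      ← sub_eq_neg_add]

section

variable {V U : Type} {X : Sp V} {Y : U → Set V} {ε : ℕ} {u : ℤ → U} {P : ℤ → V}

theorem sS_up {l : ℕ} (hl : ∀ j, X.d (P j) (P (j + 1)) ≤ l) (i : ℤ) (m : ℕ) :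
    X.d (P i) (P (i + m)) ≤ m * l := by
  induction m with
  | zero => simp [X.d_self]
  | succ m ih =>
    have := X.tri (P i) (P (i + m)) (P (i + m + 1))
    have := hl (i + m)
    rw [Nat.cast_succ, ← add_assoc, Nat.succ_mul]
    omega

theorem sS_low {N : ℕ} (hb : ∀ i j k, i ≤ j → j ≤ k → X.Bt (10 * ε) (P i) (P j) (P k))
    (hN : ∀ j, N + 20 * ε ≤ 2 * X.d (P j) (P (j + 1))) (i : ℤ) (m : ℕ) :
    m * N ≤ 2 * X.d (P i) (P (i + m)) := by
  induction m with
  | zero => simp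
  | succ m ih =>
    have := hb i (i + m) (i + m + 1) (by omega) (by omega)
    have := hN (i + m)
    rw [Nat.cast_succ, ← add_assoc, Nat.succ_mul]
    unfold Bt at *
    omega

theorem sS_qc {l : ℕ} (hy : X.Hyp ε)
    (hb : ∀ i j k, i ≤ j → j ≤ k → X.Bt (10 * ε) (P i) (P j) (P k))
    (hl : ∀ j, X.d (P j) (P (j + 1)) ≤ l) (h1 : 11 * ε ≤ l) {i k : ℤ} (hik : i ≤ k) {m : V}
    (hm : X.Bt 0 (P i) m (P k)) : ∃ j, X.d m (P j) ≤ 10 * l := by
  obtain ⟨n, rfl⟩ := Int.le.dest hik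
  by_cases h : X.d (P i) (P (i + n)) ≤ X.d (P i) m
  · exact ⟨i + n, by unfold Bt at hm; omega⟩
  obtain ⟨r, h2, h3, h4⟩ := ivt (fun r : ℕ => X.d (P i) (P (i + r)) ≤ X.d (P i) m) n
    (by simp [X.d_self]) h
  have := X.tri (P i) (P (i + r)) (P (i + r + 1))
  have := hl (i + r)
  have := hy.l2 hm (hb i (i + r) (i + n) (by omega) (by omega))
  rw [Nat.cast_succ, ← add_assoc] at h4
  exact ⟨i + r, by omega⟩

variable {H : Type} [Group H] [MulAction H V] [MulAction H U]

theorem sS_smul (iso : X.Iso H) (he : Eqv H Y) (h : Chain X Y ε u P) (c : H) :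
    Chain X Y ε (fun j => c • u j) fun j => c • P j :=
  ⟨fun j => let ⟨y, h1, h2⟩ := h.n0 j; ⟨c • y, he c _ _ h1, by rwa [iso]⟩,
    fun j => he c _ _ (h.n1 j), fun j e => h.ne j (smul_left_cancel c e),
    fun j => by rw [iso]; exact h.long j⟩

theorem sS_core (hq : StmtQuot) (hc : StmtChain) : ∃ C₀ : ℕ, ∀ {V U H : Type} {X : Sp V}
    [Group H] [MulAction H V] [MulAction H U] {Y : U → Set V} {δ ε l N L : ℕ} {o : V}
    {u : ℤ → U} {P : ℤ → V} {w : H}, Geom X H δ o → Csa H → Fam X Y ε → Eqv H Y →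
    (∀ (u u' : U) (g : H), u ≠ u' → g • u = u → g • u' = u' → g = 1) → Chain X Y ε u P →
    3 ≤ L → (∀ j, u (j + L) = w • u j) → (∀ j, P (j + L) = w • P j) →
    (∀ j, X.d (P j) (P (j + 1)) ≤ l) → (∀ j, N + 20 * ε ≤ 2 * X.d (P j) (P (j + 1))) →
    (∀ j k, X.d (P j) (P (j + 1)) ≤ X.d (P k) (P (k + 1)) + 1000 * ε → j % L ≤ k % L) →
    C₀ * l < L * N →
    ∃ (H' : Type) (_ : Group H') (φ : H →* H'), Function.Surjective φ ∧ Nice H' ∧ φ w = 1 ∧
      ∀ (g : H) (x : V), X.d x (g • x) ≤ ε → φ g = 1 → g = 1 := by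
  obtain ⟨C₀, hq⟩ := hq
  refine ⟨20 * C₀, ?_⟩
  intro V U H X _ _ _ Y δ ε l N L o u P w hG hH hF hE h2 hC hL pu pP hl hN hr hB
  have iso := hG.iso
  have l1 : 10000 * ε ≤ l := (hC.long 0).trans (hl 0)
  have ε1 := hF.pos
  have hb := fun c : H => (hc V U X Y ε hF _ _ (sS_smul iso hE hC c)).1
  let Y₂ : H ⧸ Subgroup.zpowers w → Set V := fun v => {y | ∃ (c : H) (j : ℤ), c = v ∧ y = c • P j}
  have mem : ∀ (c : H) (y : V), y ∈ Y₂ c → ∃ j, y = c • P j := by
    rintro c y ⟨c', j, e, rfl⟩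
    obtain ⟨t, ht⟩ := Subgroup.mem_zpowers_iff.1 (QuotientGroup.eq.1 e.symm)
    exact ⟨j + t * L, by rw [sS_per pP, smul_smul, ht, mul_inv_cancel_left]⟩
  have far : ∀ (t j : ℤ), t ≠ 0 → L * N ≤ 2 * X.d (P j) (w ^ t • P j) := by
    have key : ∀ (t : ℕ) (j : ℤ), t ≠ 0 → L * N ≤ 2 * X.d (P j) (w ^ (t : ℤ) • P j) := by
      intro t j ht
      have := sS_low (P := P) (by simpa using hb 1) hN j (t * L)
      rw [Nat.cast_mul, sS_per pP] at this
      exact (Nat.mul_le_mul_right _ (Nat.le_mul_of_pos_left _ (by omega))).trans this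
    intro t j ht
    obtain ⟨n, rfl | rfl⟩ := t.eq_nat_or_neg
    · exact key n j (by omega)
    · rw [zpow_neg, iso.disp_inv]; exact key n j (by omega)
  have cj : ∀ (c : H) (t : ℤ), c * w ^ t * c⁻¹ ∈
      MulAction.stabilizer H (c : H ⧸ Subgroup.zpowers w) := fun c t => by
    rw [MulAction.mem_stabilizer_iff, MulAction.Quotient.smul_coe, smul_eq_mul,
      inv_mul_cancel_right, eq_comm, QuotientGroup.eq, inv_mul_cancel_left]
    exact Subgroup.zpow_mem_zpowers w t
  have key := hq V X H δ o (H ⧸ Subgroup.zpowers w) Y₂ (10 * l) (L * l)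
    (MulAction.stabilizer H) hG hH
    ⟨hF.hyp.mono (by omega), by omega, ?_, ?_, ?_⟩ ?_ ?_ (fun _ _ h => h) ?_ ?_
    (fun v g h hg hh => mul_mem (mul_mem (mul_mem hg hh) (inv_mem hg)) (inv_mem hh))
    (fun _ _ h _ => h) (fun _ _ _ _ h _ => h) ?_
  · obtain ⟨H', _, φ, a1, a2, a3, a4, -⟩ := key
    exact ⟨H', inferInstance, φ, a1, a2, by simpa using a3 _ _ (cj 1 1),
      fun g x h => a4 g x (by omega)⟩
  · intro v
    obtain ⟨c, rfl⟩ := QuotientGroup.mk_surjective v
    exact ⟨_, c, 0, rfl, rfl⟩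
  · intro v x y m hx hy hm
    obtain ⟨c, rfl⟩ := QuotientGroup.mk_surjective v
    obtain ⟨i, rfl⟩ := mem c x hx
    obtain ⟨k, rfl⟩ := mem c y hy
    have q := @sS_qc V X ε (fun j => c • P j) l hF.hyp (hb c)
      (fun j => by rw [iso]; exact hl j) (by omega)
    rcases le_total i k with h | h
    · obtain ⟨j, hj⟩ := q h hm
      exact ⟨_, ⟨c, j, rfl, rfl⟩, hj⟩
    · obtain ⟨j, hj⟩ := q h hm.symm
      exact ⟨_, ⟨c, j, rfl, rfl⟩, hj⟩
  · intro v v' hv x hx y hy p hp q hq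
    obtain ⟨c, rfl⟩ := QuotientGroup.mk_surjective v
    obtain ⟨c', rfl⟩ := QuotientGroup.mk_surjective v'
    obtain ⟨i', rfl⟩ := mem c' x hx
    obtain ⟨j', rfl⟩ := mem c' y hy
    obtain ⟨i, rfl⟩ := mem c p hp
    obtain ⟨j, rfl⟩ := mem c q hq
    by_contra hcon
    obtain ⟨k, k', k'', e1, e2, e3, b1, b2, b3, b4⟩ :=
      (hc V U X Y ε hF _ _ (sS_smul iso hE hC c)).2 _ _ l (sS_smul iso hE hC c')
        (fun j => by rw [iso]; exact hl j) i j i' j' (not_le.1 hcon)
    simp only [iso _] at b1 b2 b3 b4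
    obtain ⟨t, ht⟩ := Int.ModEq.dvd (le_antisymm (hr _ _ b1) (hr _ _ b2))
    obtain ⟨t', ht'⟩ := Int.ModEq.dvd (le_antisymm (hr _ _ b3) (hr _ _ b4))
    obtain rfl : k' = k + t * L := by linarith
    obtain rfl : k'' = k + 1 + t * L := by
      refine e3.elim (by omega) fun e => absurd (Int.le_of_dvd two_pos ⟨t - t', ?_⟩ : (L : ℤ) ≤ 2)
        (by omega)
      linarith
    rw [sS_per pu, smul_smul, eq_comm, ← inv_smul_eq_iff, eq_comm, smul_smul] at e1 e2
    have := h2 _ _ _ (hC.ne k) e1.symm e2.symm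
    refine hv (QuotientGroup.eq.2 ?_).symm
    rw [inv_mul_eq_one.1 this, inv_mul_cancel_left]
    exact Subgroup.zpow_mem_zpowers w t
  · rintro g v y ⟨c, j, rfl, rfl⟩
    exact ⟨g * c, j, rfl, smul_smul _ _ _⟩
  · intro g v r hr
    rw [MulAction.mem_stabilizer_iff, smul_smul, inv_mul_cancel_right, mul_smul, hr]
  · intro v
    obtain ⟨c, rfl⟩ := QuotientGroup.mk_surjective v
    refine ⟨_, cj c 1, fun h => ?_⟩
    have := far 1 0 one_ne_zero
    rw [conj_eq_one_iff.1 h, one_smul, X.d_self] at this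
    omega
  · intro v r hr r1 y hy
    obtain ⟨c, rfl⟩ := QuotientGroup.mk_surjective v
    obtain ⟨j, rfl⟩ := mem c y hy
    obtain ⟨t, ht⟩ := Subgroup.mem_zpowers_iff.1 (QuotientGroup.eq.1
      ((MulAction.mem_stabilizer_iff.1 hr).symm.trans (MulAction.Quotient.smul_coe _ r c)))
    have := far t j (by
      rintro rfl
      exact r1 (by simpa [eq_inv_mul_iff_mul_eq] using ht))
    rw [ht, mul_smul, iso.inv', smul_eq_mul, mul_smul] at this
    nlinarith
  · intro v x hx y hy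
    obtain ⟨c, rfl⟩ := QuotientGroup.mk_surjective v
    obtain ⟨i, rfl⟩ := mem c x hx
    obtain ⟨j, rfl⟩ := mem c y hy
    refine ⟨_, cj c (-((j - i) / L)), ?_⟩
    have h0 := Int.emod_nonneg (j - i) (b := L) (by omega)
    have h1 := Int.emod_lt_of_pos (j - i) (b := L) (by omega)
    have := sS_up hl i ((j - i) % L).toNat
    rw [smul_smul, inv_mul_cancel_right, mul_smul, iso, ← sS_per pP,
      show j + -((j - i) / L) * L = i + ((j - i) % L).toNat by
        rw [Int.toNat_of_nonneg h0, Int.emod_def]; ring]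
    exact this.trans (Nat.mul_le_mul_right _ (by omega))

end

theorem stepS (hq : StmtQuot) (hl : StmtLox) (ha : StmtAxis) (hc : StmtChain) : StmtS := by
  classical
  obtain ⟨C₀, core⟩ := sS_core hq hc
  rintro H _ ⟨hH, V, X, _, δ, o, hG⟩ K s F hF hK ⟨a₁, ha₁, b₁, hb₁, hab⟩
  obtain ⟨a, aK, hm⟩ := hl V X H δ o hG K hK
  have iso := hG.iso
  have δ1 := hG.pos
  have a1 : a ≠ 1 := by
    rintro rfl
    have := hm o
    rw [one_smul, X.d_self] at this
    omega
  obtain ⟨h, hK, hh⟩ : ∃ h ∈ K, ¬ Commute a h := by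
    by_contra hcon
    push Not at hcon
    exact hab (hH.ct a _ _ a1 (hcon _ ha₁) (hcon _ hb₁))
  obtain ⟨x₀, x1, x2⟩ : ∃ x₀, s * x₀ ∈ K ∧ ¬ Commute a x₀ := by
    by_cases e : Commute a s
    · exact ⟨s⁻¹ * h, by simpa using hK, fun e' => hh (by simpa using e.mul_right e')⟩
    · exact ⟨s⁻¹, by simp, fun e' => e (by simpa using e'.inv_right)⟩
  obtain ⟨U, _, Y, u₀, p, ε₀, fam, eqv, -, stab, memY, -, bt, fix⟩ := ha V X H δ o hG hH a hm
  obtain ⟨ε, e0, e1, e2, e3, e4⟩ : ∃ ε, ε₀ ≤ ε ∧ δ ≤ ε ∧ X.d p (x₀ • p) ≤ ε ∧ X.d p (h • p) ≤ ε ∧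
      ∀ f ∈ F, X.d o (f • o) ≤ ε :=
    ⟨ε₀ + δ + X.d p (x₀ • p) + X.d p (h • p) + F.sup fun f => X.d o (f • o), by omega, by omega,
      by omega, by omega, fun f hf => le_add_left (Finset.le_sup (f := fun f => X.d o (f • o)) hf)⟩
  have fam' : Fam X Y ε := ⟨fam.hyp.mono e0, δ1.trans e1, fam.ne,
    fun u x y m h1 h2 h3 => let ⟨q, q1, q2⟩ := fam.qc u x y m h1 h2 h3; ⟨q, q1, q2.trans e0⟩,
    fun u u' h0 x h1 y h2 p h3 q h4 => (fam.ov u u' h0 x h1 y h2 p h3 q h4).trans (by omega)⟩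
  have τ1 := hm p
  generalize hτ : X.d p (a • p) = τ at τ1
  have f1 : ∀ n : ℕ, n ≤ X.d p (a ^ n • p) := fun n => by
    have := pw_lower iso hG.hyp bt (by omega) n
    rw [hτ] at this
    nlinarith
  have f2 : ∀ n k : ℕ, X.d p (a ^ n • p) + k ≤ X.d p (a ^ (n + k) • p) + 4 * ε := fun n k => by
    have := orbit_bt iso hG.hyp bt (by omega) (i := 0) (j := n) (k := (n + k : ℕ)) (by omega)
      (by omega)
    have := f1 k
    unfold Bt at *
    simp only [zpow_zero, one_smul, zpow_natCast] at *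
    rw [pow_add, mul_smul, iso, ← mul_smul, ← pow_add] at *
    omega
  obtain ⟨L, hL, L3⟩ : ∃ L, L = 3 * C₀ * τ + 3 ∧ 3 ≤ L := ⟨_, rfl, by omega⟩
  let x : ℤ → H := fun j => if (L : ℤ) ∣ j then x₀ else h
  let n : ℤ → ℕ := fun j => 20000 * ε * L + 20000 * ε * (j % L).toNat
  have xa : ∀ j, ¬ Commute a (x j) ∧ X.d p (x j • p) ≤ ε := fun j => by
    simp only [x]; split_ifs <;> exact ⟨‹_›, ‹_›⟩
  have xp : ∀ j, x (j + L) = x j := fun j => by simp [x]
  obtain ⟨g, g0, g1⟩ := sS_seq fun j => x j * a ^ n j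
  have gp : ∀ j, g (j + L) = g L * g j := fun j => by
    have tp : ∀ j, x (j + L) * a ^ n (j + L) = x j * a ^ n j := fun j => by simp [xp, n]
    induction j using Int.induction_on with
    | zero => simp [g0]
    | succ i ih => rw [add_right_comm, g1, g1, ih, tp, mul_assoc]
    | pred i ih =>
      have h1 := g1 (-(i : ℤ) - 1 + L)
      have h2 := g1 (-(i : ℤ) - 1)
      rw [sub_add_cancel] at h2
      rw [add_right_comm, sub_add_cancel, ih, tp, h2, ← mul_assoc] at h1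
      exact (mul_right_cancel h1).symm
  have gK : ∀ i : ℕ, i < L → s * g (i + 1) ∈ K := fun i hi => by
    induction i with
    | zero =>
      rw [g1, Nat.cast_zero, g0, one_mul, ← mul_assoc]
      exact mul_mem (by simpa [x] using x1) (pow_mem aK _)
    | succ i ih =>
      rw [g1, ← mul_assoc]
      refine mul_mem (ih (by omega)) (mul_mem ?_ (pow_mem aK _))
      simp only [x]
      rwa [if_neg fun e => absurd (Int.le_of_dvd (by omega) e) (by omega)]
  have len : ∀ j, X.d (g j • p) (g (j + 1) • p) ≤ X.d p (a ^ n j • p) + ε ∧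
      X.d p (a ^ n j • p) ≤ X.d (g j • p) (g (j + 1) • p) + ε := fun j => by
    have := (xa j).2
    have := X.tri p (x j • p) (x j • a ^ n j • p)
    have := X.tri (x j • p) p (x j • a ^ n j • p)
    have := X.symm (x j • p) p
    have := iso (x j) p (a ^ n j • p)
    rw [g1, mul_smul, mul_smul, iso]
    omega
  have lo : ∀ j, 20000 * ε * L ≤ X.d (g j • p) (g (j + 1) • p) + ε ∧ 60000 * ε ≤ 20000 * ε * L :=
    fun j => ⟨(Nat.le_add_right _ _).trans ((f1 (n j)).trans (len j).2), by nlinarith⟩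
  have ε1 := fam'.pos
  obtain ⟨H', _, φ, b1, b2, b3, b4⟩ := core (u := fun j => (g j * x j) • u₀) (P := fun j => g j • p)
    (w := g L) (l := 3 * τ * (20000 * ε * L)) (N := 20000 * ε * L) hG hH fam' eqv fix
    ⟨fun j => ⟨_, eqv (g j * x j) _ _ ((memY p).2 ⟨1, .one_right a, (one_smul _ _).symm⟩),
      by rw [mul_smul, iso]; exact (xa j).2⟩,
    fun j => by
      rw [g1, ← mul_assoc, mul_smul _ (a ^ n j)]
      exact eqv _ _ _ ((memY _).2 ⟨_, (Commute.refl a).pow_right _, rfl⟩),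
    fun j e => by
      rw [g1, ← mul_assoc, mul_assoc (g j * x j), mul_smul (g j * x j)] at e
      have := ((Commute.refl a).pow_right (n j)).inv_right.mul_right
        ((stab _).1 (smul_left_cancel _ e).symm)
      exact (xa (j + 1)).1 (by simpa using this),
    fun j => by have := lo j; omega⟩ L3
    (fun j => by rw [gp, xp, mul_assoc, mul_smul]) (fun j => by rw [gp, mul_smul])
    (fun j => by
      have h1 := iso.disp_pow a p (n j)
      have h2 : (j % L).toNat ≤ L := by have := Int.emod_lt_of_pos j (b := L) (by omega); omega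
      have h3 : n j ≤ 2 * (20000 * ε * L) := by
        have := Nat.mul_le_mul_left (20000 * ε) h2
        simp only [n]; omega
      have := len j
      have := lo j
      rw [hτ] at h1
      nlinarith [Nat.mul_le_mul_right τ h3])
    (fun j => by have := lo j; omega)
    (fun j k e => by
      by_contra hcon
      have := Int.emod_nonneg k (b := L) (by omega)
      obtain ⟨r, hr⟩ : ∃ r, (j % L).toNat = (k % L).toNat + (r + 1) :=
        ⟨(j % L).toNat - (k % L).toNat - 1, by omega⟩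
      have h1 := f2 (n k) (20000 * ε * (r + 1))
      rw [show n k + 20000 * ε * (r + 1) = n j by simp only [n, hr]; ring, mul_add_one] at h1
      have := len j
      have := len k
      omega)
    (by
      have := lo 0
      rw [← mul_assoc]
      exact Nat.mul_lt_mul_of_pos_right (by rw [hL]; linarith) (by omega))
  refine ⟨H', inferInstance, φ, b1, b2, fun f hf e => hF (b4 f o (e4 f hf) e ▸ hf), s * g L, ?_,
    by rw [map_mul, b3, mul_one]⟩
  have := gK (L - 1) (by omega)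
  rwa [show ((L - 1 : ℕ) : ℤ) + 1 = L by omega] at this

end Pool.Agent.P.MP_d7b7be_al
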