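import Pool.Agent.P.MP_d7b7be_al.Defs

set_option autoImplicit false

namespace Pool.Agent.P.MP_d7b7be_al

open Pool.Agent.P.MP_4b59b0_al Pool.Agent.P.MP_e79ed6_al Sp

theorem sT_mono {V U : Type} {X : Sp V} {Y : U → Set V} {ε ε' : ℕ} (F : Fam X Y ε)
    (h : ε ≤ ε') : Fam X Y ε' where
  hyp := F.hyp.mono h
  pos := F.pos.trans h
  ne := F.ne
  qc u x y m hx hy hm := by
    obtain ⟨p, h1, h2⟩ := F.qc u x y m hx hy hm
    exact ⟨p, h1, h2.trans h⟩
  ov u u' hu x hx y hy p hp q hq := by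
    have := F.ov u u' hu x hx y hy p hp q hq
    omega

theorem sT_fin {V : Type} {X : Sp V} {H : Type} [Group H] [MulAction H V] {δ : ℕ} {o : V}
    (G : Geom X H δ o) (p : V) (D : ℕ) : {c : H | X.d p (c • p) ≤ D}.Finite := by
  refine (G.fin (D + 2 * X.d o p)).subset fun c hc => ?_
  have := G.iso.disp_move c o p
  simp only [Set.mem_ofPred_eq] at hc ⊢
  omega

theorem sT_each {V : Type} {X : Sp V} {H : Type} [Group H] [MulAction H V] {δ : ℕ} {o : V}
    (G : Geom X H δ o) (csa : Csa H) (p : V) (T : ℕ) (c : H) :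
    ∃ m : ℕ, Odd m ∧ ∀ k, 0 < k → c ^ (m * k) = 1 ∨ T ≤ X.d p (c ^ (m * k) • p) := by
  by_cases hc : IsOfFinOrder c
  · refine ⟨orderOf c, ?_, fun k _ => Or.inl (by rw [pow_mul, pow_orderOf_eq_one, one_pow])⟩
    rw [← Nat.not_even_iff_odd]
    rintro ⟨j, hj⟩
    have h0 := hc.orderOf_pos
    have h1 : c ^ j = 1 := csa.ni _ (by
      rw [← pow_mul, mul_two, ← hj, pow_orderOf_eq_one])
    have h2 := Nat.le_of_dvd (by omega) (orderOf_dvd_of_pow_eq_one h1)
    omega
  · have hi : Function.Injective fun j : ℕ => c ^ j := injective_pow_iff_not_isOfFinOrder.2 hc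
    obtain ⟨N, hN⟩ := ((sT_fin G p T).preimage hi.injOn).bddAbove
    refine ⟨2 * N + 1, ⟨N, rfl⟩, fun k hk => Or.inr ?_⟩
    by_contra h
    have h1 : (2 * N + 1) * k ≤ N := hN (show X.d p (c ^ ((2 * N + 1) * k) • p) ≤ T by omega)
    have h2 : (2 * N + 1) * 1 ≤ (2 * N + 1) * k := Nat.mul_le_mul_left _ hk
    omega

theorem sT_exp {V : Type} {X : Sp V} {H : Type} [Group H] [MulAction H V] {δ : ℕ} {o : V}
    (G : Geom X H δ o) (csa : Csa H) {a : H} {p : V} (hp : X.Ax a (6 * δ) p) (T : ℕ) :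
    ∃ n : ℕ, Odd n ∧ ∀ c : H, Commute a c → c ^ n = 1 ∨ T ≤ X.d p (c ^ n • p) := by
  classical
  choose m hm1 hm2 using sT_each G csa p T
  have hΦ := sT_fin G p (T + 15 * δ + 1)
  have ho : Odd (∏ c ∈ hΦ.toFinset, m c) :=
    Finset.prod_induction _ _ (fun _ _ h1 h2 => h1.mul h2) odd_one fun c _ => hm1 c
  refine ⟨_, ho, fun c hc => ?_⟩
  by_cases h : c ∈ hΦ.toFinset
  · obtain ⟨k, hk⟩ := Finset.dvd_prod_of_mem m h
    have hk0 : 0 < k := by
      rcases Nat.eq_zero_or_pos k with h0 | h0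
      · have := ho.pos
        rw [hk, h0] at this
        simp at this
      · exact h0
    rw [hk]
    exact hm2 c k hk0
  · right
    by_contra h1
    obtain ⟨q, hq⟩ := small_root G.iso G.hyp ho.pos (le_of_lt (not_le.1 h1))
    have h2 := hp.move G.iso G.hyp hc q
    exact h (hΦ.mem_toFinset.2 (show X.d p (c • p) ≤ T + 15 * δ + 1 by omega))

/-- The subgroup of the `n`-th powers of an abelian stabiliser. -/
def sT_R {H U : Type} [Group H] [MulAction H U] (n : ℕ)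
    (hab : ∀ (u : U) (g h : H), g • u = u → h • u = u → Commute g h) (u : U) : Subgroup H where
  carrier := {r | ∃ c : H, c • u = u ∧ r = c ^ n}
  one_mem' := ⟨1, one_smul _ _, (one_pow n).symm⟩
  mul_mem' := by
    rintro _ _ ⟨c, h1, rfl⟩ ⟨d, h2, rfl⟩
    exact ⟨c * d, by rw [mul_smul, h2, h1], ((hab u c d h1 h2).mul_pow n).symm⟩
  inv_mem' := by
    rintro _ ⟨c, h1, rfl⟩
    exact ⟨c⁻¹, inv_smul_eq_iff.2 h1.symm, (inv_pow c n).symm⟩

theorem stepT (hq : StmtQuot) (hl : StmtLox) (ha : StmtAxis) : StmtT := by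
  classical
  intro H _ hN g F hF
  by_cases hg : IsOfFinOrder g
  · exact ⟨H, inferInstance, MonoidHom.id H, Function.surjective_id, hN,
      fun f hf h => hF ((show f = 1 from h) ▸ hf), hg⟩
  obtain ⟨csa, V, X, _, δ, o, G⟩ := hN
  obtain ⟨C₀, hq⟩ := hq
  obtain ⟨a, haK, hM⟩ := hl V X H δ o G (Subgroup.zpowers g) (infinite_zpowers.2 hg)
  obtain ⟨U, _, Y, u₀, p, ε₀, fam, eqv, tr, st, hY, near, hbt, fix2⟩ := ha V X H δ o G csa a hM
  have iso := G.iso
  have hδ := G.pos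
  have hax : X.Ax a (6 * δ) p := by
    have h1 := hM p
    have := (ax0 iso G.hyp hbt (by omega)).2
    exact this.mono (by omega)
  obtain ⟨n, hn, hexp⟩ := sT_exp G csa hax (C₀ * (ε₀ + F.sup fun f => X.d o (f • o)))
  have han : a ^ n ≠ 1 := by
    intro h
    have h1 := Mv.pow iso G.hyp (l := 97 * δ) (hM.mono (by omega)) (by omega) n p
    rw [h, one_smul, X.d_self] at h1
    have h2 : 1 * (97 * δ) ≤ n * (97 * δ) := Nat.mul_le_mul_right _ hn.pos
    omega
  have ha1 : a ≠ 1 := fun h => han (by rw [h, one_pow])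
  have hst : ∀ k c : H, c • k • u₀ = k • u₀ → Commute a (k⁻¹ * c * k) := by
    intro k c h
    apply (st _).1
    rw [mul_smul, mul_smul, h, inv_smul_smul]
  have hab : ∀ (u : U) (g h : H), g • u = u → h • u = u → Commute g h := by
    intro u g h h1 h2
    obtain ⟨k, rfl⟩ := tr u
    have h3 := (csa.ct a _ _ ha1 (hst k g h1) (hst k h h2)).eq
    have e1 : g * h = k * (k⁻¹ * g * k * (k⁻¹ * h * k)) * k⁻¹ := by group
    have e2 : h * g = k * (k⁻¹ * h * k * (k⁻¹ * g * k)) * k⁻¹ := by group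
    show g * h = h * g
    rw [e1, e2, h3]
  have hback : ∀ (k : H) (y : V), y ∈ Y (k • u₀) → k⁻¹ • y ∈ Y u₀ := by
    intro k y hy
    have := eqv k⁻¹ _ y hy
    rwa [inv_smul_smul] at this
  have hconj : ∀ (g : H) (u : U) (r : H), r ∈ sT_R n hab u → g * r * g⁻¹ ∈ sT_R n hab (g • u) := by
    rintro g u _ ⟨c, h1, rfl⟩
    exact ⟨g * c * g⁻¹, by rw [mul_smul, mul_smul, inv_smul_smul, h1], conj_pow.symm⟩
  obtain ⟨H', _, φ, h1, h2, h3, h4, -⟩ := hq V X H δ o U Y (ε₀ + F.sup fun f => X.d o (f • o))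
    (2 * ε₀ + n * X.d p (a • p)) (sT_R n hab) G csa (sT_mono fam (Nat.le_add_right _ _)) eqv hconj
    (by
      rintro u _ ⟨c, h1, rfl⟩
      exact (MulAction.stabilizer H u).pow_mem h1 n)
    (by
      intro u
      obtain ⟨k, rfl⟩ := tr u
      refine ⟨k * a ^ n * k⁻¹, hconj k u₀ _ ⟨a, (st a).2 (Commute.refl a), rfl⟩, fun h => han ?_⟩
      have e : a ^ n = k⁻¹ * (k * a ^ n * k⁻¹) * k := by group
      rw [e, h]; group)
    (by
      rintro u _ ⟨c, h1, rfl⟩ h2 y hy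
      obtain ⟨k, rfl⟩ := tr u
      obtain ⟨c', h3, h4⟩ := (hY _).1 (hback k y hy)
      have h5 := hst k c h1
      have e : (k⁻¹ * c * k) ^ n = k⁻¹ * c ^ n * k := by
        have := conj_pow (a := k⁻¹) (b := c) (i := n)
        rwa [inv_inv] at this
      rcases hexp _ h5 with h6 | h6
      · exfalso
        apply h2
        have e2 : c ^ n = k * (k⁻¹ * c ^ n * k) * k⁻¹ := by group
        rw [e2, ← e, h6]; group
      · have h7 : Commute ((k⁻¹ * c * k) ^ n) c' := (csa.ct a _ _ ha1 h5 h3).pow_left n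
        rw [← iso.disp_comm h7 p, ← h4, e, iso.disp_conj', smul_inv_smul] at h6
        exact h6)
    (by
      intro u g h h1 h2
      have e : g * h * g⁻¹ * h⁻¹ = 1 := by rw [(hab u g h h1 h2).eq]; group
      rw [e]; exact one_mem _)
    (by
      intro u g h1 h2
      obtain ⟨m, hm⟩ := hn
      have h3 : g ^ n ∈ sT_R n hab u := ⟨g, h1, rfl⟩
      have e : g = g ^ n * ((g ^ 2) ^ m)⁻¹ := by
        rw [← pow_mul, eq_mul_inv_iff_mul_eq, hm, pow_succ' g (2 * m)]
      rw [e]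
      exact mul_mem h3 (inv_mem (pow_mem h2 m)))
    (by
      intro u u' g h1 h2 h3
      rw [fix2 u u' g h1 h2 h3]; exact one_mem _)
    (by
      intro u x hx y hy
      obtain ⟨k, rfl⟩ := tr u
      obtain ⟨i, hi⟩ := near _ (hback k x hx)
      obtain ⟨j, hj⟩ := near _ (hback k y hy)
      have hn0 : (0 : ℤ) < n := by exact_mod_cast hn.pos
      obtain ⟨s, hs⟩ := Int.eq_ofNat_of_zero_le (Int.emod_nonneg (i - j) hn0.ne')
      have hs2 : s ≤ n := by
        have := Int.emod_lt_of_pos (i - j) hn0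
        omega
      have hr : (a ^ ((i - j) / n)) ^ n ∈ sT_R n hab u₀ :=
        ⟨_, (st _).2 ((Commute.refl a).zpow_right _), rfl⟩
      refine ⟨_, hconj k u₀ _ hr, ?_⟩
      have e : a ^ i = (a ^ ((i - j) / n)) ^ n * a ^ j * a ^ s := by
        rw [← zpow_natCast, ← zpow_natCast, ← zpow_mul, ← zpow_add, ← zpow_add]
        congr 1
        have := Int.emod_add_ediv_mul (i - j) n
        omega
      generalize (a ^ ((i - j) / n)) ^ n = r at e ⊢
      have e1 : X.d x ((k * r * k⁻¹) • y) = X.d (k⁻¹ • x) (r • k⁻¹ • y) := by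
        rw [iso.inv, mul_smul, mul_smul]
      have e2 : X.d (a ^ i • p) (r • a ^ j • p) = X.d p (a ^ s • p) := by
        rw [e, mul_smul, mul_smul, iso, iso, X.symm]
      have e3 : X.d (r • a ^ j • p) (r • k⁻¹ • y) = X.d (k⁻¹ • y) (a ^ j • p) := by
        rw [iso, X.symm]
      have t1 := X.tri (k⁻¹ • x) (a ^ i • p) (r • k⁻¹ • y)
      have t2 := X.tri (a ^ i • p) (r • a ^ j • p) (r • k⁻¹ • y)
      have t3 := iso.disp_pow a p s
      have t4 : s * X.d p (a • p) ≤ n * X.d p (a • p) := Nat.mul_le_mul_right _ hs2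
      omega)
  refine ⟨H', inferInstance, φ, h1, h2, fun f hf h => hF ?_, ?_⟩
  · have h5 : X.d o (f • o) ≤ F.sup fun f => X.d o (f • o) :=
      Finset.le_sup (f := fun f => X.d o (f • o)) hf
    have h6 := h4 f o (by omega) h
    exact h6 ▸ hf
  · obtain ⟨t, rfl⟩ := Subgroup.mem_zpowers_iff.1 haK
    have h5 := h3 u₀ (g ^ n) ⟨g, (st g).2 ((Commute.refl g).zpow_left t), rfl⟩
    exact isOfFinOrder_iff_pow_eq_one.2 ⟨n, hn.pos, by rw [← map_pow, h5]⟩

end Pool.Agent.P.MP_d7b7be_al
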