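import Pool.Agent.P.MP_d7b7be_al.Quot
import Pool.Agent.P.MP_d7b7be_al.Lox
import Pool.Agent.P.MP_d7b7be_al.Axis
import Pool.Agent.P.MP_d7b7be_al.Chain
import Pool.Agent.P.MP_d7b7be_al.StepT
import Pool.Agent.P.MP_d7b7be_al.StepS
import Pool.Agent.P.MP_d7b7be_al.Base
import Pool.Agent.P.MP_d7b7be_al.Limit
import Pool.Agent.P.MP_d7b7be_al.Amp

set_option autoImplicit false

namespace Pool.Agent.P.MP_d7b7be_al

theorem main : ∃ (G : Type) (_ : Group G), (∀ g : G, IsOfFinOrder g) ∧ ¬ IsSofic G ∧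
    (∀ K : Subgroup G, K ≠ ⊤ → IsSofic K) ∧ ∀ m : ℕ, 1 ≤ m → ∃ g : G, g ^ m ≠ 1 :=
  final (limit (base quot) (stepT quot lox (axis acyl)) (stepS quot lox (axis acyl) chain) lox amp lf)
    amp lf

end Pool.Agent.P.MP_d7b7be_al
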