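import Pool.Agent.P.MP_d7b7be_al.QuotT
import Pool.Agent.P.MP_d7b7be_al.ConeLin

set_option autoImplicit false

namespace Pool.Agent.P.MP_d7b7be_al

open Pool.Agent.P.MP_4b59b0_al Pool.Agent.P.MP_e79ed6_al Sp

attribute [local instance] ConeOff.act QS.act

theorem quot : StmtQuot := by
  classical
  obtain ⟨δ₀, K, K', hK', hc⟩ := cone_lin
  obtain ⟨δ', hδ'⟩ : ∃ δ', δ' = 2 * δ₀ + 2 := ⟨_, rfl⟩
  obtain ⟨ρ, hρ⟩ : ∃ ρ, ρ = 1000 * δ' := ⟨_, rfl⟩
  obtain ⟨c, hcd⟩ : ∃ c, c = K' * (2 ^ (ρ + 1) * 100) := ⟨_, rfl⟩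
  have c1 : 100 ≤ c := by
    have : 1 * (1 * 100) ≤ K' * (2 ^ (ρ + 1) * 100) :=
      Nat.mul_le_mul hK' (Nat.mul_le_mul_right _ Nat.one_le_two_pow)
    omega
  refine ⟨100 * c + 100, fun V X H _ _ δ o U _ Y ε C₁ G geo csa F eqv g1 g2 g3 g4 g5 g6 g7 g8 => ?_⟩
  have iso := geo.iso
  have pos := F.pos
  have hM : K' * (2 ^ (ρ + 1) * (100 * ε)) = c * ε := by rw [hcd]; ring
  have hc' := hc ε (100 * ε) ρ le_rfl (by omega) V X H U Y F iso eqv
  rw [hM] at hc'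
  obtain ⟨Z, z1, z2⟩ := hc'
  have c2 : 100 * ε ≤ c * ε := Nat.mul_le_mul_right _ c1
  have c3 : (100 * c + 100) * ε = 100 * (c * ε) + 100 * ε := by ring
  let R : Rot Z.P (100 * (c * ε)) :=
    { G := G
      conj := g1
      fix := g2
      rot := fun u r a hr r1 => Z.rot r u _ _ a (g2 u r hr) (g4 u r hr r1) c3.ge }
  have h : RT R δ' ρ :=
    ⟨Z.iso, by omega, csa, le_rfl, Z.sep, by omega, g3, g5, g6, g7, ⟨Z.ι o, Z.ι_ne o⟩⟩
  obtain ⟨Q⟩ := exists_QS R Z.iso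
  have hyp : Q.X'.Hyp δ' := hδ' ▸ (Q.rips Z.iso le_rfl Z.hyp (by omega) Z.sep).hyp
  have inj : ∀ (g : H) (x : V) (k : ℕ), X.d x (g • x) ≤ ε → (∀ u : U, g • u ≠ u) →
      QuotientGroup.mk' R.N (g ^ k) = 1 → g ^ k = 1 := by
    intro g x k hx hu hk
    have sm : Sm Z.P (100 * (ε + ε)) ((1 : H) • Z.ι x) (g ^ k • Z.ι x) := by
      intro u
      rw [one_smul, ← Z.ι_smul]
      exact Z.pa g u x ε k hx (hu u)
    exact (Sm.uniq (R := R) Z.iso g3 le_rfl (by omega) hk.symm sm).symm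
  have shr : ∀ x y, Z.Z.d (Z.ι x) (Z.ι y) ≤ X.d x y + 1 := by
    intro x y
    have a1 := Z.shrink x y
    by_contra hlt
    have a2 : 100 * ε * (X.d x y + 2) ≤ 100 * ε * Z.Z.d (Z.ι x) (Z.ι y) :=
      Nat.mul_le_mul_left _ (by omega)
    have a3 : 1 * X.d x y ≤ 100 * ε * X.d x y := Nat.mul_le_mul_right _ (by omega)
    rw [mul_add] at a2
    omega
  refine ⟨H ⧸ R.N, inferInstance, QuotientGroup.mk' R.N, QuotientGroup.mk'_surjective _,
    ⟨csa' Q h hyp (Z.ι o), Q.V', Q.X', Q.act, δ', Q.pr (Z.ι o),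
      Q.iso' Z.iso, hyp, by omega, fun D => ?_, ?_⟩,
    fun u r hr => (QuotientGroup.eq_one_iff _).2 (R.le_N u hr), fun g x hx hg => ?_, inj⟩
  · have hex : ∀ x y : V, ∃ t, ∃ n ∈ R.N, t = X.d x (n • y) := fun x y => ⟨_, 1, one_mem _, rfl⟩
    let f : V → V → ℕ := fun x y => Nat.find (hex x y)
    have d1 : ∀ x y, ∃ n ∈ R.N, f x y = X.d x (n • y) := fun x y => Nat.find_spec (hex x y)
    have d2 : ∀ x y, ∀ n ∈ R.N, f x y ≤ X.d x (n • y) := fun x y n hn =>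
      Nat.find_min' (hex x y) ⟨n, hn, rfl⟩
    have lip := z2 f C₁ (fun x y z => by
        obtain ⟨n, hn, e⟩ := d1 x y
        obtain ⟨k, hk, e'⟩ := d1 y z
        have h1 := d2 x z (n * k) (mul_mem hn hk)
        have h2 := X.tri x (n • y) ((n * k) • z)
        rw [mul_smul n k z, iso, ← mul_smul, ← e, ← e'] at h2
        exact h1.trans h2)
      (fun x y => by simpa using d2 x y 1 (one_mem _))
      (fun u x hx y hy => by
        obtain ⟨r, hr, e⟩ := g8 u x hx y hy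
        exact (d2 x y r (R.le_N u hr)).trans e)
    refine ((geo.fin ((2 ^ ρ * (100 * ε) + C₁) * D)).image (QuotientGroup.mk' R.N)).subset ?_
    intro g hg
    obtain ⟨k, rfl, e⟩ := Q.lift_el g (Z.ι o)
    obtain ⟨n, hn, e'⟩ := d1 o (k • o)
    have a1 := lip o (k • o)
    rw [Z.ι_smul, e] at a1
    refine ⟨n * k, ?_, ?_⟩
    · change X.d o ((n * k) • o) ≤ _
      rw [mul_smul, ← e']
      exact a1.trans (Nat.mul_le_mul_left _ hg)
    · change ((n * k : H) : H ⧸ R.N) = k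
      rw [QuotientGroup.mk_mul, (QuotientGroup.eq_one_iff _).2 hn, one_mul]
  · obtain ⟨r, hr⟩ := geo.cob
    refine ⟨ρ + 1 + (r + 1), fun w => ?_⟩
    obtain ⟨w, rfl⟩ := Q.surj w
    obtain ⟨x, hx⟩ := z1 w
    obtain ⟨g, hg⟩ := hr x
    refine ⟨g, ?_⟩
    rw [← Q.eqv, ← Z.ι_smul]
    have := Q.le w (Z.ι (g • o)); have := Z.Z.tri w (Z.ι x) (Z.ι (g • o)); have := shr x (g • o)
    omega
  · by_cases hu : ∀ u : U, g • u ≠ u
    · simpa using inj g x 1 hx hu (by simpa using hg)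
    · push Not at hu
      obtain ⟨u, hu⟩ := hu
      by_contra hne
      have a1 := F.rot iso eqv hu
        (g4 u g (h.stabN ((QuotientGroup.eq_one_iff _).1 hg) hu) hne) x
      have a2 := ang_le_two (X := X) (Y := Y) u x (g • x)
      omega

end Pool.Agent.P.MP_d7b7be_al
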