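import Pool.Agent.P.MP_d7b7be_al.Defs
import Pool.Agent.P.MP_4b59b0_al.Quot

set_option autoImplicit false

namespace Pool.Agent.P.MP_d7b7be_al

open Pool.Agent.P.MP_4b59b0_al Pool.Agent.P.MP_e79ed6_al Sp

section free

variable {V : Type} {X : Sp V} {H : Type} [Group H] [MulAction H V] {δ : ℕ}

/-- FREE, first part. -/
theorem free_ct' (iso : X.Iso H) (hδ : X.Hyp δ) {a b b' : H} {w : V} {c : ℕ} (hE : X.Esc a)
    (hw : X.Ax a c w) (rigid : ∀ h : H, Commute a h → X.d w (h • w) ≤ 6 * c + 15 * δ → h = 1)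
    (hb : Commute a b) (hb' : Commute a b') : Commute b b' := by
  obtain ⟨N, hN⟩ := hw w
  obtain ⟨N', hN'⟩ := hE.far iso w w
    (2 * (X.d w (b • w) + X.d w (b' • w)) + 2 * c + 4 * δ + 1)
  have h1 := hN' (N + N') (by omega)
  have h2 := comm iso hδ (g := b) (h := b') (D := X.d w (b • w) + X.d w (b' • w))
    (by rw [iso.disp_comm (hb.symm.inv_right.pow_right _)]; omega)
    (by rw [iso.disp_comm (hb.symm.pow_right _)]; omega)
    (by rw [iso.disp_comm (hb'.symm.inv_right.pow_right _)]; omega)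
    (by rw [iso.disp_comm (hb'.symm.pow_right _)]; omega)
    (hN (N + N') (N + N') (by omega) (by omega)) (by omega) (by omega)
  have h3 := rigid ((b * b')⁻¹ * (b' * b))
    ((hb.mul_right hb').inv_right.mul_right (hb'.mul_right hb)) (by
    rw [mul_smul, iso.inv', mul_smul, mul_smul]; exact h2)
  exact (inv_mul_eq_one.1 h3)

/-- FREE, second part. -/
theorem free_conj' (iso : X.Iso H) (hδ : X.Hyp δ) {a x : H} {w : V} {c : ℕ} (hE : X.Esc a)
    (hw : X.Ax a c w) (rigid : ∀ h : H, Commute a h → X.d w (h • w) ≤ 10 * c + 10 * δ → h = 1)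
    (hx : Commute a (x⁻¹ * a * x)) : x⁻¹ * a * x = a ∨ x⁻¹ * a * x = a⁻¹ := by
  set B := x⁻¹ * a * x with hB
  have hτ : 10 * c + 10 * δ < X.d w (a • w) := by
    by_contra hc
    exact hE.ne_one w (rigid a (Commute.refl a) (by omega))
  have b1 : X.d w (B • w) ≤ X.d w (a • w) + c + δ := by
    have := hw.move iso hδ hx (x⁻¹ • w)
    have e := iso.disp_conj' a x (x⁻¹ • w)
    rw [smul_inv_smul, ← hB] at e
    rwa [e] at this
  have b2 : X.d w (a • w) ≤ X.d w (B • w) + c + δ := by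
    have := hw.move iso hδ (Commute.refl a) (x • w)
    rwa [← iso.disp_conj'] at this
  obtain ⟨N1, hN1⟩ := hw w
  obtain ⟨N2, hN2⟩ := hw.comm iso hx w
  obtain ⟨N3, hN3⟩ := hw.comm iso (Commute.refl a) w
  obtain ⟨N4, hN4⟩ := hw.comm iso (Commute.refl a).inv_right w
  obtain ⟨N5, hN5⟩ := hE.far iso w w (2 * X.d w (a • w) + c + δ + 1)
  set N := N1 + N2 + N3 + N4 + N5
  have c1 := hN1 N N (by omega) (by omega)
  have c2 := hN2 N N (by omega) (by omega)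
  have c3 := hN3 N N (by omega) (by omega)
  have c4 := hN4 N N (by omega) (by omega)
  have c5 := hN5 N (by omega)
  have d1 : X.d (a⁻¹ ^ N • w) (a • a⁻¹ ^ N • w) ≤ X.d w (a • w) :=
    (iso.disp_comm ((Commute.refl a).inv_right.pow_right _) w).le
  have d2 : X.d (a ^ N • w) (a • a ^ N • w) ≤ X.d w (a • w) :=
    (iso.disp_comm ((Commute.refl a).pow_right _) w).le
  have e0 := iso.disp_inv a w
  generalize a⁻¹ ^ N • w = p at *
  generalize a ^ N • w = q at *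
  have := X.tri p (a⁻¹ • w) w; have := X.tri q (a⁻¹ • w) w; have := X.symm w (a⁻¹ • w)
  have s1 := stl iso hδ d1 d2 c1 (by omega) (by omega)
  have s2 := stl iso hδ d1 d2 c4 (by omega) (by omega)
  rw [smul_inv_smul] at s2
  have key : X.d (B • w) (a • w) ≤ 10 * c + 10 * δ ∨
      X.d (B • w) (a⁻¹ • w) ≤ 10 * c + 10 * δ :=
    free_arith (hδ.l2 c1 c2) (hδ.l2 c1 c3) (hδ.l2 c2 c3) (hδ.l2 c2 c4) (X.tri p w (B • w))
      (by have := X.tri p (B • w) w; rwa [X.symm (B • w) w] at this) (X.tri p w (a • w))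
      (by have := X.tri p (a • w) w; rwa [X.symm (a • w) w] at this)
      (by have := X.tri p w (a⁻¹ • w); rwa [e0] at this)
      (by have := X.tri p (a⁻¹ • w) w; rwa [X.symm (a⁻¹ • w) w, e0] at this)
      b1 b2 s1.2.1 s1.2.2 s2.2.1 s2.2.2
  rcases key with h | h
  · left
    have := rigid (B⁻¹ * a) (hx.inv_right.mul_right (Commute.refl a)) (by rw [mul_smul, iso.inv']; exact h)
    exact inv_mul_eq_one.1 this
  · right
    have := rigid (B⁻¹ * a⁻¹) (hx.inv_right.mul_right (Commute.refl a).inv_right)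
      (by rw [mul_smul, iso.inv']; exact h)
    exact inv_mul_eq_one.1 this

theorem mal_of_conj' (ni : ∀ g : H, g ^ 2 = 1 → g = 1)
    (ct : ∀ a b c : H, a ≠ 1 → Commute a b → Commute a c → Commute b c) {a x : H}
    (h : x⁻¹ * a * x = a ∨ x⁻¹ * a * x = a⁻¹) : Commute a x := by
  rcases h with h | h
  · rw [mul_assoc, inv_mul_eq_iff_eq_mul] at h; exact h
  · by_cases hx : x = 1
    · rw [hx]; exact Commute.one_right _
    · refine ct (x ^ 2) a x (fun h2 => hx (ni x h2)) ?_ ((Commute.refl x).pow_left 2)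
      have h1 : a * x = x * a⁻¹ := by
        rw [mul_assoc, inv_mul_eq_iff_eq_mul] at h; exact h
      have h2 : a⁻¹ * x = x * a := by
        rw [inv_mul_eq_iff_eq_mul, ← mul_assoc, h1, inv_mul_cancel_right]
      show x ^ 2 * a = a * x ^ 2
      rw [pow_two, ← mul_assoc, h1, mul_assoc x a⁻¹, h2, mul_assoc]

end free

section

variable {V : Type} {X : Sp V} {H : Type} [Group H] [MulAction H V] {U : Type}
  [MulAction H U] {M Λ : ℕ} {P : Apx X H U M}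

attribute [local instance] QS.act

/-- The standing hypotheses on a rotating family. -/
structure RT (R : Rot P Λ) (δ ρ : ℕ) : Prop where
  iso : X.Iso H
  pos : 1 ≤ δ
  csa : Csa H
  hΛ : 100 * M ≤ Λ
  sep : ∀ u u', u ≠ u' → ρ < X.d (P.ω u) (P.ω u')
  hρ : 1000 * δ ≤ ρ
  nt : ∀ u, ∃ r ∈ R.G u, r ≠ 1
  ab : ∀ (u : U) (g h : H), g • u = u → h • u = u → g * h * g⁻¹ * h⁻¹ ∈ R.G u
  ni : ∀ (u : U) (g : H), g • u = u → g ^ 2 ∈ R.G u → g ∈ R.G u
  fix2 : ∀ (u u' : U) (g : H), u ≠ u' → g • u = u → g • u' = u' → g ∈ R.G u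
  out : ∃ x, ∀ u, x ≠ P.ω u

variable {R : Rot P Λ} {δ ρ : ℕ}

theorem RT.near (h : RT R δ ρ) {u v : U} (hd : X.d (P.ω u) (P.ω v) ≤ ρ) : u = v := by
  by_contra hc
  have := h.sep u v hc; omega

theorem RT.stabN (h : RT R δ ρ) {n : H} (hn : n ∈ R.N) {u : U} (hu : n • u = u) : n ∈ R.G u := by
  have pos := h.pos; have hρ := h.hρ; have hΛ := h.hΛ
  obtain ⟨x, hx⟩ := h.out
  obtain ⟨m, m1, -⟩ := X.geod' (P.ω u) x 1 (d_pos (hx u).symm)
  have hm : ∀ v, m ≠ P.ω v := by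
    rintro v rfl
    obtain rfl := h.near (u := u) (v := v) (by omega)
    rw [X.d_self] at m1; omega
  obtain ⟨k, hk⟩ := R.mem_N_iff.1 hn
  induction k generalizing n with
  | zero => rw [hk.zero]; exact one_mem _
  | succ k ih =>
    by_cases h1 : n = 1
    · rw [h1]; exact one_mem _
    obtain ⟨v, r, hr, r1, hl, ha⟩ := R.green h.iso (by omega) hm hk h1
    have hb : X.Bt 0 m (P.ω v) (n • m) := by
      by_contra hc
      refine R.rot v r _ hr r1 (P.mono (P.tri (P.symm ha) ?_) (θ := 14 * M + M) (by omega))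
      rw [smul_smul, mul_inv_cancel_left]; exact P.of_not_bt hc
    have e1 := h.iso n (P.ω u) m
    rw [← P.ω_smul, hu] at e1
    have := X.tri m (P.ω u) (n • m); have := X.symm m (P.ω u); have := X.tri (P.ω u) m (P.ω v)
    obtain rfl := h.near (u := u) (v := v) (by unfold Bt at hb; omega)
    have h2 := ih (mul_mem (inv_mem (R.le_N u hr)) hn)
      (by rw [mul_smul, hu, R.fix u _ (inv_mem hr)]) hl
    simpa using mul_mem hr h2

variable (Q : QS R)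

theorem rigid' (h : RT R δ ρ) (u : U) (g : H ⧸ R.N)
    (hg : Q.X'.d (Q.pr (P.ω u)) (g • Q.pr (P.ω u)) ≤ ρ) :
    ∃ k : H, (k : H ⧸ R.N) = g ∧ k • u = u := by
  obtain ⟨k, rfl, e⟩ := Q.lift_el g (P.ω u)
  rw [← P.ω_smul] at e
  exact ⟨k, rfl, (h.near (by omega)).symm⟩

theorem rigid'' (h : RT R δ ρ) (u : U) (g : H ⧸ R.N)
    (hg : Q.X'.d (Q.pr (P.ω u)) (g • Q.pr (P.ω u)) ≤ ρ) : g • Q.pr (P.ω u) = Q.pr (P.ω u) := by
  obtain ⟨k, rfl, e⟩ := rigid' Q h u g hg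
  rw [← Q.eqv, ← P.ω_smul, e]

theorem uf_end (h : RT R δ ρ) {a : H ⧸ R.N} {u : U} {m : V} (hm : X.d (P.ω u) m = δ + 1)
    (ha : Q.X'.d (Q.pr m) (a • Q.pr m) ≤ δ) :
    ∃ k : H, (k : H ⧸ R.N) = a ∧ k • u = u ∧ Sm P M m (k • m) := by
  have pos := h.pos; have hρ := h.hρ
  obtain ⟨k, rfl, e⟩ := Q.lift_el a m
  have h1 := h.iso.disp_move k (P.ω u) m
  rw [← P.ω_smul] at h1
  refine ⟨k, rfl, (h.near (by omega)).symm, fun v => P.of_not_bt fun hc => ?_⟩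
  have := X.tri (P.ω u) m (P.ω v)
  obtain rfl := h.near (u := u) (v := v) (by unfold Bt at hc; omega)
  have := X.symm m (P.ω u)
  unfold Bt at hc; omega

/-- A nontrivial element fixes at most one apex. -/
theorem uf (h : RT R δ ρ) (hyp : Q.X'.Hyp δ) {a : H ⧸ R.N} (a1 : a ≠ 1) (D : ℕ) : ∀ u u' : U,
    Q.X'.d (Q.pr (P.ω u)) (Q.pr (P.ω u')) = D → a • Q.pr (P.ω u) = Q.pr (P.ω u) →
    a • Q.pr (P.ω u') = Q.pr (P.ω u') → D = 0 := by
  have pos := h.pos; have hρ := h.hρ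
  have iso' := Q.iso' h.iso
  induction D using Nat.strong_induction_on with
  | _ D ih =>
  intro u u₁ hD hu hu₁
  by_contra h0
  obtain ⟨n, hn, e⟩ := Q.ex (P.ω u) (P.ω u₁)
  rw [← P.ω_smul] at e
  have e' : Q.pr (P.ω (n • u₁)) = Q.pr (P.ω u₁) := by rw [P.ω_smul, Q.pr_N hn]
  rw [← e'] at hD hu₁ e
  generalize n • u₁ = u' at *
  have hne : u ≠ u' := by rintro rfl; rw [X.d_self] at e; omega
  have hs := h.sep u u' hne
  obtain ⟨γ, g0, gn, hγ⟩ := X.exists_geo (P.ω u) (P.ω u')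
  rw [← e, hD] at gn hγ
  have d1 := hγ 0 (δ + 1) (by omega) (by omega)
  have d2 := hγ (δ + 1) (D - (δ + 1)) (by omega) (by omega)
  have d3 := hγ (D - (δ + 1)) D (by omega) le_rfl
  rw [g0] at d1; rw [gn] at d3
  generalize γ (δ + 1) = m at *
  generalize γ (D - (δ + 1)) = m' at *
  have l1 := Q.le (P.ω u) m; have l2 := Q.le m m'; have l3 := Q.le m' (P.ω u')
  have t1 := Q.X'.tri (Q.pr (P.ω u)) (Q.pr m) (Q.pr (P.ω u'))
  have t2 := Q.X'.tri (Q.pr m) (Q.pr m') (Q.pr (P.ω u'))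
  have t3 := Q.X'.tri (Q.pr (P.ω u)) (Q.pr m) (Q.pr m')
  have mv : ∀ c, Q.X'.Bt 0 (Q.pr (P.ω u)) c (Q.pr (P.ω u')) → Q.X'.d c (a • c) ≤ δ := by
    intro c hc
    have := qc iso' hyp (g := a) (D := 0) (by rw [hu, Q.X'.d_self]) (by rw [hu₁, Q.X'.d_self]) hc
    omega
  have s3 : Sm P M m m' := Q.sm_of (by omega) fun v hb => by
    have t4 := Q.X'.tri (Q.pr (P.ω u)) (Q.pr m) (Q.pr (P.ω v))
    have t5 := Q.X'.tri (Q.pr (P.ω v)) (Q.pr m') (Q.pr (P.ω u'))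
    have t6 := Q.X'.tri (Q.pr (P.ω u)) (Q.pr (P.ω v)) (Q.pr (P.ω u'))
    have h1 := mv (Q.pr (P.ω v)) (by unfold Bt at *; omega)
    have := ih _ (by unfold Bt at hb; omega) u v rfl hu (rigid'' Q h v a (by omega))
    unfold Bt at hb; omega
  obtain ⟨k, rfl, k1, k2⟩ := uf_end Q h (u := u) (m := m) (by omega)
    (mv _ (by unfold Bt; omega))
  obtain ⟨k', e1, k1', k2'⟩ := uf_end Q h (a := (k : H ⧸ R.N)) (u := u') (m := m')
    (by rw [X.symm]; omega) (mv _ (by unfold Bt; omega))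
  obtain rfl : k = k' := Sm.uniq h.iso h.nt h.hΛ (θ := M + M + M + M) (x := m) (by omega) e1.symm
    (((k2.symm.tri s3).tri k2').tri (s3.symm.smul k'))
  exact a1 ((QuotientGroup.eq_one_iff _).2 (R.le_N u (h.fix2 u u' k hne k1 k1')))

theorem fx_eq (h : RT R δ ρ) (hyp : Q.X'.Hyp δ) {a b : H ⧸ R.N} (a1 : a ≠ 1) {u : U}
    (hu : a • Q.pr (P.ω u) = Q.pr (P.ω u)) (hb : a • b • Q.pr (P.ω u) = b • Q.pr (P.ω u)) :
    b • Q.pr (P.ω u) = Q.pr (P.ω u) := by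
  obtain ⟨b, rfl⟩ := QuotientGroup.mk_surjective b
  rw [← Q.eqv, ← P.ω_smul] at hb ⊢
  exact (Q.X'.eq_of _ _ (uf Q h hyp a1 _ u (b • u) rfl hu hb)).symm

theorem fx_comm (h : RT R δ ρ) (hyp : Q.X'.Hyp δ) {a b : H ⧸ R.N} (a1 : a ≠ 1) {u : U}
    (hu : a • Q.pr (P.ω u) = Q.pr (P.ω u)) (hb : Commute a b) :
    b • Q.pr (P.ω u) = Q.pr (P.ω u) :=
  fx_eq Q h hyp a1 hu (by rw [smul_smul, hb.eq, mul_smul, hu])

theorem stab_comm (h : RT R δ ρ) {b c : H ⧸ R.N} {u : U} (hb : b • Q.pr (P.ω u) = Q.pr (P.ω u))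
    (hc : c • Q.pr (P.ω u) = Q.pr (P.ω u)) : Commute b c := by
  obtain ⟨b, rfl, b1⟩ := rigid' Q h u b (by rw [hb, Q.X'.d_self]; omega)
  obtain ⟨c, rfl, c1⟩ := rigid' Q h u c (by rw [hc, Q.X'.d_self]; omega)
  have := (QuotientGroup.eq_one_iff _).2 (R.le_N u (h.ab u b c b1 c1))
  simp only [QuotientGroup.mk_mul, QuotientGroup.mk_inv] at this
  rw [mul_inv_eq_one, mul_inv_eq_iff_eq_mul] at this
  exact this

/-- No apex is fixed. -/
def Nf (a : H ⧸ R.N) : Prop := ∀ u, a • Q.pr (P.ω u) ≠ Q.pr (P.ω u)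

theorem Nf.ne_one {Q : QS R} (h : RT R δ ρ) (hyp : Q.X'.Hyp δ) {a k : H ⧸ R.N} (ha : Nf Q a)
    (hk : Commute a k) {u : U} (hd : Q.X'.d (Q.pr (P.ω u)) (k • Q.pr (P.ω u)) ≤ ρ) : k = 1 := by
  by_contra k1
  exact ha u (fx_comm Q h hyp k1 (rigid'' Q h u k hd) hk.symm)

theorem Nf.conj {Q : QS R} {a : H ⧸ R.N} (ha : Nf Q a) (x : H ⧸ R.N) : Nf Q (x⁻¹ * a * x) := by
  intro u hu
  obtain ⟨x, rfl⟩ := QuotientGroup.mk_surjective x
  rw [mul_smul, mul_smul, inv_smul_eq_iff, ← Q.eqv, ← P.ω_smul] at hu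
  exact ha _ hu

theorem sm_small' (h : RT R δ ρ) {g : H} (g1 : Nf Q (g : H ⧸ R.N)) {x : V}
    (hg : X.d x (g • x) ≤ 100 * δ) : Sm P M x (g • x) := by
  intro u
  refine P.of_not_bt fun hc => g1 u (rigid'' Q h u _ ?_)
  have h1 := h.iso.disp_move g (P.ω u) x
  have h2 := Q.le (P.ω u) (g • P.ω u)
  rw [Q.eqv] at h2
  have := X.symm x (P.ω u); have := h.hρ
  unfold Bt at hc; omega

theorem ls' (h : RT R δ ρ) (hyp : Q.X'.Hyp δ) {g g' : H} (g1 : Nf Q (g : H ⧸ R.N))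
    (e : (g : H ⧸ R.N) = g') {x y : V} (exy : X.d x y = Q.X'.d (Q.pr x) (Q.pr y))
    (hx : X.d x (g • x) ≤ 100 * δ) (hy : X.d y (g' • y) ≤ 100 * δ) : g = g' := by
  have s1 := sm_small' Q h g1 hx
  have s2 := sm_small' Q h (e ▸ g1) hy
  have s3 : Sm P M x y := Q.sm_of exy fun u hb => g1 u (rigid'' Q h u _ (by
    have a1 := Q.le x (g • x); have a2 := Q.le y (g' • y)
    rw [Q.eqv] at a1 a2; rw [← e] at a2
    have := qc (Q.iso' h.iso) hyp (a1.trans hx) (a2.trans hy) hb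
    have := h.hρ; omega))
  exact Sm.uniq h.iso h.nt h.hΛ (by omega) e
    ((((s3.smul g).symm.tri s1.symm).tri s3).tri s2)

theorem lift_comm' (h : RT R δ ρ) (hyp : Q.X'.Hyp δ) {k : H} (k1 : Nf Q (k : H ⧸ R.N)) {x : V}
    (hx : X.d x (k • x) ≤ 100 * δ) {g : H ⧸ R.N} (hc : Commute g k) :
    ∃ g₀ : H, (g₀ : H ⧸ R.N) = g ∧ Commute g₀ k := by
  obtain ⟨g₀, rfl, e⟩ := Q.lift_el g x
  refine ⟨g₀, rfl, ?_⟩
  have := ls' Q h hyp (g' := g₀ * k * g₀⁻¹) k1 (by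
    rw [QuotientGroup.mk_mul, QuotientGroup.mk_mul, hc.eq, QuotientGroup.mk_inv,
      mul_inv_cancel_right]) (x := x) (y := g₀ • x) (by rw [e, Q.eqv]) hx
    (by rw [h.iso.disp_conj]; exact hx)
  exact (mul_inv_eq_iff_eq_mul.1 this.symm)

theorem ni' (h : RT R δ ρ) (hyp : Q.X'.Hyp δ) (x : V) (g : H ⧸ R.N) (hg : g ^ 2 = 1) : g = 1 := by
  have pos := h.pos
  by_cases hf : Nf Q g
  · obtain ⟨p, hp⟩ := circ (Q.iso' h.iso) hyp (by norm_num) hg (Q.pr x)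
    obtain ⟨p, rfl⟩ := Q.surj p
    obtain ⟨g, rfl, e⟩ := Q.lift_el g p
    have s1 := sm_small' Q h hf (x := p) (by have := hp 1; rw [pow_one] at this; omega)
    have := Sm.uniq h.iso h.nt h.hΛ (g := 1) (g' := g ^ 2) (x := p) (θ := M + M) (by omega)
      hg.symm (by rw [one_smul, pow_two, mul_smul]; exact s1.tri (s1.smul g))
    rw [h.csa.ni g this.symm]; rfl
  · unfold Nf at hf
    push Not at hf
    obtain ⟨u, hu⟩ := hf
    obtain ⟨k, rfl, k1⟩ := rigid' Q h u g (by rw [hu, Q.X'.d_self]; omega)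
    rw [← QuotientGroup.mk_pow, QuotientGroup.eq_one_iff] at hg
    exact (QuotientGroup.eq_one_iff _).2 (R.le_N u (h.ni u k k1
      (h.stabN hg (by rw [pow_two, mul_smul, k1, k1]))))

theorem ct'' (h : RT R δ ρ) (hyp : Q.X'.Hyp δ) (x : V) (a b c : H ⧸ R.N) (a1 : a ≠ 1)
    (hb : Commute a b) (hc : Commute a c) : Commute b c := by
  have pos := h.pos; have hρ := h.hρ
  have iso' := Q.iso' h.iso
  by_cases hf : Nf Q a
  swap
  · unfold Nf at hf
    push Not at hf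
    obtain ⟨u, hu⟩ := hf
    exact stab_comm Q h (fx_comm Q h hyp a1 hu hb) (fx_comm Q h hyp a1 hu hc)
  by_cases hm : Q.X'.Mv a (100 * δ)
  · obtain ⟨hE, m, m1, -⟩ := hm.ax iso' hyp (by omega) (Q.pr x)
    by_cases hu : ∃ u, Q.X'.Ax a (20 * δ) (Q.pr (P.ω u))
    · obtain ⟨u, hu⟩ := hu
      exact free_ct' iso' hyp hE hu (fun k k1 hk => hf.ne_one h hyp k1 (u := u) (by omega)) hb hc
    · push Not at hu
      obtain ⟨q, rfl⟩ := Q.surj m
      have key : ∀ b : H ⧸ R.N, Commute a b → ∃ b₀ : H, (b₀ : H ⧸ R.N) = b ∧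
          Sm P M q (b₀ • q) := by
        intro b hb
        obtain ⟨b₀, rfl, e⟩ := Q.lift_el b q
        refine ⟨b₀, rfl, Q.sm_of (by rw [e, Q.eqv]) fun u hbt => hu u ?_⟩
        rw [Q.eqv] at hbt
        exact (m1.bt hyp (m1.comm iso' hb) hbt).mono (by omega)
      obtain ⟨a₀, rfl, sa⟩ := key a (Commute.refl a)
      have key2 : ∀ b₀ : H, Commute (a₀ : H ⧸ R.N) b₀ → Sm P M q (b₀ • q) → Commute a₀ b₀ := by
        intro b₀ hb sb
        refine Sm.uniq h.iso h.nt h.hΛ (θ := M + M + M + M) (x := q) (by omega) hb.eq ?_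
        rw [mul_smul, mul_smul]
        exact (((sb.smul a₀).symm.tri sa.symm).tri sb).tri (sa.smul b₀)
      obtain ⟨b₀, rfl, sb⟩ := key b hb
      obtain ⟨c₀, rfl, sc⟩ := key c hc
      exact (h.csa.ct a₀ b₀ c₀ (fun h => a1 (by rw [h]; rfl)) (key2 _ hb sb)
        (key2 _ hc sc)).map (QuotientGroup.mk' R.N)
  · unfold Mv at hm
    push Not at hm
    obtain ⟨p, hp⟩ := hm
    obtain ⟨p, rfl⟩ := Q.surj p
    obtain ⟨a₀, rfl, e⟩ := Q.lift_el a p
    obtain ⟨b₀, rfl, b2⟩ := lift_comm' Q h hyp hf (x := p) (by omega) hb.symm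
    obtain ⟨c₀, rfl, c2⟩ := lift_comm' Q h hyp hf (x := p) (by omega) hc.symm
    exact (h.csa.ct a₀ b₀ c₀ (fun h => a1 (by rw [h]; rfl)) b2.symm c2.symm).map
      (QuotientGroup.mk' R.N)

theorem mal'' (h : RT R δ ρ) (hyp : Q.X'.Hyp δ) (x₀ : V) (a x : H ⧸ R.N) (a1 : a ≠ 1)
    (hx : Commute a (x⁻¹ * a * x)) : Commute a x := by
  have pos := h.pos; have hρ := h.hρ
  have iso' := Q.iso' h.iso
  by_cases hf : Nf Q a
  swap
  · unfold Nf at hf
    push Not at hf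
    obtain ⟨u, hu⟩ := hf
    have h1 := fx_comm Q h hyp a1 hu hx
    rw [mul_smul, mul_smul, inv_smul_eq_iff] at h1
    exact stab_comm Q h hu (fx_eq Q h hyp a1 hu h1)
  have fin : ∀ (q : V) (a₀ : H), (a₀ : H ⧸ R.N) = a → Sm P M q (a₀ • q) →
      (∀ u, ¬ Q.X'.Bt 0 (Q.pr q) (Q.pr (P.ω u)) (x⁻¹ • Q.pr q)) → Commute a x := by
    rintro q a₀ rfl sa hu
    obtain ⟨y, ey, e⟩ := Q.lift_el x⁻¹ q
    have sy : Sm P M q (y • q) := Q.sm_of (by rw [e, Q.eqv, ey]) (by rw [Q.eqv, ey]; exact hu)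
    have sB : Sm P (M + M + M) q ((y * a₀ * y⁻¹) • q) := by
      have s1 := sa.smul y
      have s2 := (sy.smul (y * a₀ * y⁻¹)).symm
      rw [smul_smul, inv_mul_cancel_right, mul_smul] at s2
      exact (sy.tri s1).tri s2
    have c1 : Commute a₀ (y * a₀ * y⁻¹) := by
      refine Sm.uniq h.iso h.nt h.hΛ (θ := M + M + M + M + (M + M + M) + M) (x := q)
        (by omega) ?_ ?_
      · have := hx.eq
        simp only [QuotientGroup.mk_mul, QuotientGroup.mk_inv, ey, inv_inv]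
        exact this
      · rw [mul_smul, mul_smul _ a₀]
        exact (((sB.smul a₀).symm.tri sa.symm).tri sB).tri (sa.smul _)
    have c2 := (h.csa.mal a₀ y⁻¹ (fun h => a1 (by rw [h]; rfl)) (by rwa [inv_inv])).map
      (QuotientGroup.mk' R.N)
    simpa [ey] using c2
  by_cases hm : Q.X'.Mv a (100 * δ)
  · obtain ⟨hE, m, m1, -⟩ := hm.ax iso' hyp (by omega) (Q.pr x₀)
    by_cases hu : ∃ u, Q.X'.Ax a (20 * δ) (Q.pr (P.ω u))
    · obtain ⟨u, hu⟩ := hu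
      exact mal_of_conj' (ni' Q h hyp x₀) (ct'' Q h hyp x₀)
        (free_conj' iso' hyp hE hu (fun k k1 hk => hf.ne_one h hyp k1 (u := u) (by omega)) hx)
    · push Not at hu
      obtain ⟨q, rfl⟩ := Q.surj m
      obtain ⟨a₀, rfl, e⟩ := Q.lift_el a q
      refine fin q a₀ rfl (Q.sm_of (by rw [e, Q.eqv]) fun u hbt => hu u ?_) fun u hbt => hu u ?_
      · rw [Q.eqv] at hbt
        exact (m1.bt hyp (m1.comm iso' (Commute.refl _)) hbt).mono (by omega)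
      · have m2 := m1.conj iso' x⁻¹
        rw [inv_inv] at m2
        exact ((m1.mono (by omega)).bt hyp (Ax.cm iso' hyp hx m1 m2) hbt).mono (by omega)
  · unfold Mv at hm
    push Not at hm
    obtain ⟨p, hp⟩ := hm
    obtain ⟨p, rfl⟩ := Q.surj p
    obtain ⟨a₀, rfl, e⟩ := Q.lift_el a p
    refine fin p a₀ rfl (sm_small' Q h hf (by omega)) fun u hbt => ?_
    rcases tw iso' hyp hx hp.le (by rw [iso'.disp_conj', smul_inv_smul]; exact hp.le) hbt with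
      h1 | h1
    · exact hf u (rigid'' Q h u _ (by omega))
    · exact hf.conj x u (rigid'' Q h u _ (h1.trans (by omega)))

theorem csa' (h : RT R δ ρ) (hyp : Q.X'.Hyp δ) (x₀ : V) : Csa (H ⧸ R.N) :=
  ⟨ni' Q h hyp x₀, ct'' Q h hyp x₀, mal'' Q h hyp x₀⟩

end

end Pool.Agent.P.MP_d7b7be_al
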